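import Pool.Agent.Lib.MP_4d4569_co.CX.Side

/-! The bilinear weak sixth moment bound for two transversal Sidon sets in `ℤ^d`. -/

namespace E3CX

open Finset MeasureTheory

/-- measure of the set where two sums are both at least `b` -/
noncomputable def U2 {d : ℕ} {α : Type} (I J : Finset α) (p : α → Fin d → ℤ) (c : α → ℂ) (b : ℝ) :
    ℝ := (volume : Measure (Om d)).real {x | b ≤ ‖f I p c x‖ ∧ b ≤ ‖f J p c x‖}

theorem core (d T : ℕ) (hd : 0 < d) : ∃ C : ℝ, 0 ≤ C ∧ ∀ (α : Type) (I J : Finset α)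
    (p : α → Fin d → ℤ) (c : α → ℂ) (b : ℝ), 0 < b → Sid I p → Sid J p →
    (∀ a ∈ I, ∀ a' ∈ I, ∀ z ∈ J, ∀ z' ∈ J, ∀ s : ℕ,
      (∀ i, |p a i - p a' i + (p z i - p z' i)| ≤ s) → ∀ i, |p a i - p a' i| ≤ T * s) →
    b ^ 6 * U2 I J p c b ≤ C * (ms I c + ms J c) ^ 3 := by
  obtain ⟨q, hq⟩ : ∃ x : ℝ, x = (1 / 2) ^ (d * d) := ⟨_, rfl⟩
  obtain ⟨K1, hK1⟩ : ∃ x : ℝ, x = 8192 ^ d := ⟨_, rfl⟩
  obtain ⟨K2, hK2⟩ : ∃ x : ℝ, x = (9 * (d * d)) ^ d := ⟨_, rfl⟩
  obtain ⟨K3, hK3⟩ : ∃ x : ℝ, x = ((4 * T + 3) * (d * d)) ^ d := ⟨_, rfl⟩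
  obtain ⟨K4, hK4⟩ : ∃ x : ℝ, x = 2 ^ (d + 1) := ⟨_, rfl⟩
  have hq0 : 0 < q := by rw [hq]; positivity
  have hK10 : 0 < K1 := by rw [hK1]; positivity
  have hK20 : 0 < K2 := by rw [hK2]; positivity
  have hK30 : 0 < K3 := by rw [hK3]; positivity
  have hK40 : 0 < K4 := by rw [hK4]; positivity
  obtain ⟨C1, hC8, hC1⟩ : ∃ C1 : ℝ, 8 ≤ C1 ∧ 16 * K1 * K2 ≤ C1 * q ^ 2 :=
    ⟨8 + 16 * K1 * K2 / q ^ 2, le_add_of_nonneg_right (by positivity), by
      rw [add_mul, div_mul_cancel₀ _ (by positivity)]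
      exact le_add_of_nonneg_left (by positivity)⟩
  have hC0 : 0 < C1 := by linarith
  obtain ⟨C2, hC2⟩ : ∃ x : ℝ, x = 128 * K3 * (K4 * K1) ^ 2 / q ^ 4 := ⟨_, rfl⟩
  have hC20 : 0 < C2 := by rw [hC2]; positivity
  refine ⟨C1 ^ 3 + 2 * C1 * C2, by positivity, fun α I J p c b hb hI hJ htr => ?_⟩
  have := prob (d := d)
  set U := {x | b ≤ ‖f I p c x‖ ∧ b ≤ ‖f J p c x‖} with hU
  obtain ⟨n, hn⟩ : ∃ x : ℝ, x = ms I c + ms J c := ⟨_, rfl⟩
  rw [← hn]
  have hnI := ms_nonneg I c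
  have hnJ := ms_nonneg J c
  have hn0 : 0 ≤ n := by linarith
  have hU1 : U2 I J p c b ≤ 1 := measureReal_le_one
  rcases lt_or_ge (b ^ 2) (C1 * n) with hbn | hbn
  · have h1 : (b ^ 2) ^ 3 ≤ (C1 * n) ^ 3 := pow_le_pow_left₀ (by positivity) hbn.le 3
    have h2 : b ^ 6 * U2 I J p c b ≤ b ^ 6 := mul_le_of_le_one_right (by positivity) hU1
    have h3 : 0 ≤ 2 * C1 * C2 * n ^ 3 := by positivity
    linarith
  rcases hn0.eq_or_lt with hz | hn1
  · have h1 : ms I c = 0 := by linarith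
    have h2 : U = ∅ := by
      refine Set.eq_empty_of_forall_notMem fun x hx => ?_
      have h3 : f I p c x = 0 := sum_eq_zero fun a ha => by
        have := (sum_eq_zero_iff_of_nonneg fun _ _ => by positivity).1 h1 a ha
        simp only [ne_eq, OfNat.ofNat_ne_zero, not_false_eq_true, pow_eq_zero_iff,
          norm_eq_zero] at this
        rw [this, zero_mul]
      have h4 := hx.1
      rw [h3, norm_zero] at h4
      linarith
    rw [U2, ← hU, h2, ← hz]
    simp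
  obtain ⟨m, hm⟩ : ∃ x : ℝ, x = C1 * n ^ 2 / b ^ 2 := ⟨_, rfl⟩
  have hm0 : 0 < m := by rw [hm]; positivity
  obtain ⟨gI, cI, pI, iI, vI, sI, lI⟩ := side I p c hI m hm0
  obtain ⟨gJ, cJ, pJ, iJ, vJ, sJ, lJ⟩ := side J p c hJ m hm0
  obtain ⟨Nb, hNb⟩ : ∃ x : ℝ, x = 2 * b ^ 2 / (C1 * n) := ⟨_, rfl⟩
  have hNb0 : 0 < Nb := by rw [hNb]; positivity
  have hN : ∀ t, t ≤ n → t / m + 1 ≤ Nb := by
    intro t ht
    have h1 : t / m ≤ b ^ 2 / (C1 * n) :=
      (div_le_div_of_nonneg_right ht hm0.le).trans (le_of_eq (by rw [hm]; field_simp))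
    have h2 : 1 ≤ b ^ 2 / (C1 * n) := (one_le_div (by positivity)).2 hbn
    rw [hNb, mul_div_assoc]
    linarith
  have hNI := hN (ms I c) (by linarith)
  have hNJ := hN (ms J c) (by linarith)
  obtain ⟨g, hg⟩ : ∃ g : Om d → ℝ, g = fun x => gI x + gJ x := ⟨_, rfl⟩
  obtain ⟨h, hh⟩ : ∃ h : Om d → ℝ, h = fun x => (gI x - ms I c) ^ 2 + (gJ x - ms J c) ^ 2 :=
    ⟨_, rfl⟩
  have hgc : Continuous g := by rw [hg]; fun_prop
  have hhc : Continuous h := by rw [hh]; fun_prop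
  have hg0 : ∀ x, 0 ≤ g x := fun x => by rw [hg]; exact add_nonneg (pI x) (pJ x)
  have hgi : ∫ x, g x ≤ n := by
    rw [hg, integral_add (cint cI) (cint cJ)]; linarith
  have hhi : ∫ x, h x ≤ 2 * m * n := by
    rw [hh, integral_add (cint (by fun_prop)) (cint (by fun_prop)), hn]; linarith
  have hkey := vit U hhc (fun x => by rw [hh]; positivity) (C2 / b ^ 4) (by positivity) fun y hy => by
    have hex : ∃ k : ℕ, 2 * n * (volume : Measure (Om d)).real (Metric.closedBall y (1 / 2 ^ k)) <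
        ∫ x in Metric.closedBall y (1 / 2 ^ k), g x := by
      have h1 : 3 * n < g y := by
        have h2 := (pow_le_pow_left₀ hb.le hy.1 2).trans ((sI y).trans
          (mul_le_mul_of_nonneg_right hNI (pI y)))
        rw [hNb, div_mul_eq_mul_div, le_div_iff₀ (by positivity)] at h2
        have h3 : C1 * n ≤ 2 * gI y := by
          have hb2 : 0 < b ^ 2 := by positivity
          exact le_of_mul_le_mul_left (by linarith) hb2
        have h4 := pJ y
        rw [hg]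
        show 3 * n < gI y + gJ y
        linarith [mul_le_mul_of_nonneg_right hC8 hn0]
      obtain ⟨δ, hδ, h2⟩ := Metric.eventually_nhds_iff.1 (hgc.continuousAt.eventually (lt_mem_nhds h1))
      obtain ⟨k, hk⟩ := exists_pow_lt_of_lt_one hδ (by norm_num : (1 / 2 : ℝ) < 1)
      rw [one_div_pow] at hk
      refine ⟨k, lt_of_lt_of_le ?_ (setIntegral_ge_of_const_le_real (c := 3 * n)
        measurableSet_closedBall (measure_ne_top _ _)
        (fun x hx => (h2 (lt_of_le_of_lt hx hk)).le) (cint hgc).integrableOn)⟩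
      have h3 : 0 < (volume : Measure (Om d)).real (Metric.closedBall y (1 / 2 ^ k)) :=
        lt_of_lt_of_le (by positivity) (vol_ball k y).1
      linarith [mul_pos hn1 h3]
    classical
    obtain ⟨k, hk⟩ : ∃ k, k = Nat.find hex := ⟨_, rfl⟩
    have hk1 := Nat.find_spec hex
    rw [← hk] at hk1
    have hk2 : ∀ j < k, ∫ x in Metric.closedBall y (1 / 2 ^ j), g x ≤
        2 * n * (volume : Measure (Om d)).real (Metric.closedBall y (1 / 2 ^ j)) :=
      fun j hj => not_lt.1 (Nat.find_min hex (hk ▸ hj))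
    have hk0 : 0 < k := by
      rcases Nat.eq_zero_or_pos k with h0 | h0
      · rw [h0] at hk1
        have h1 := (vol_ball 0 y).1
        have h2 := (setIntegral_le_integral (s := Metric.closedBall y (1 / 2 ^ 0)) (cint hgc)
          (ae_of_all _ hg0)).trans hgi
        rw [pow_zero, div_one, one_pow] at h1
        rw [pow_zero, div_one] at hk1 h2
        linarith [mul_le_mul_of_nonneg_left h1 hn0]
      · exact h0
    refine ⟨k, ?_⟩
    obtain ⟨V, hV⟩ : ∃ x : ℝ, x = (1 / 2 ^ k) ^ d := ⟨_, rfl⟩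
    have hV0 : 0 < V := by rw [hV]; positivity
    have hlow : n ^ 2 * V ≤ 2 * ∫ x in Metric.closedBall y (1 / 2 ^ k), h x := by
      have h1 : ∫ x in Metric.closedBall y (1 / 2 ^ k), (n * g x - 3 / 2 * n ^ 2) ≤
          ∫ x in Metric.closedBall y (1 / 2 ^ k), h x := by
        refine setIntegral_mono (cint (by fun_prop)).integrableOn (cint hhc).integrableOn fun x => ?_
        simp only [hg, hh, hn]
        linarith [sq_nonneg (gI x - ms I c - (gJ x - ms J c)),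
          sq_nonneg (gI x - ms I c + (gJ x - ms J c) - (ms I c + ms J c))]
      rw [integral_sub (cint (by fun_prop)).integrableOn (cint (by fun_prop)).integrableOn,
        integral_const_mul, setIntegral_const, smul_eq_mul] at h1
      have h2 := mul_le_mul_of_nonneg_left (vol_ball k y).1 (sq_nonneg n)
      rw [← hV] at h2
      linarith [mul_le_mul_of_nonneg_left hk1.le hn0]
    obtain ⟨σ, φ, hσ, hφ, φ1, φ2, φ3⟩ := kernel k y
    have hφc := hφ.cont
    have hE := tail hd hgc hg0 k hk0 y hφc φ2 (fun x => φ3 x hd) (2 * n) (by positivity) hk2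
    rw [← hK1, ← hV] at hE
    rw [← hq] at φ1
    have hEs : ∫ x, g x * ‖φ x‖ ^ 2 = (∫ x, gI x * ‖φ x‖ ^ 2) + ∫ x, gJ x * ‖φ x‖ ^ 2 := by
      rw [← integral_add (cint (by fun_prop)) (cint (by fun_prop))]
      simp_rw [hg, add_mul]
    have hEI0 : 0 ≤ ∫ x, gI x * ‖φ x‖ ^ 2 :=
      integral_nonneg fun x => mul_nonneg (pI x) (by positivity)
    have hEJ0 : 0 ≤ ∫ x, gJ x * ‖φ x‖ ^ 2 :=
      integral_nonneg fun x => mul_nonneg (pJ x) (by positivity)
    have hEI : ∫ x, gI x * ‖φ x‖ ^ 2 ≤ 2 * n * K1 * V := by linarith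
    have hEJ : ∫ x, gJ x * ‖φ x‖ ^ 2 ≤ 2 * n * K1 * V := by linarith
    have hσ' : (σ : ℝ) ≤ d * d * 2 ^ k := by exact_mod_cast hσ
    have hd1 : (1 : ℝ) ≤ d * d * 2 ^ k := by
      have : 0 < d * d * 2 ^ k := by positivity
      exact_mod_cast this
    have hKV : ∀ s t : ℝ, 0 ≤ s → s ≤ t * (d * d * 2 ^ k) → s ^ d * V ≤ (t * (d * d)) ^ d := by
      intro s t hs hst
      rw [hV, ← mul_pow]
      refine pow_le_pow_left₀ (by positivity) ?_ d
      rw [mul_one_div, div_le_iff₀ (by positivity)]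
      linarith
    have hK2V : (6 * σ + 3 : ℝ) ^ d * V ≤ K2 := hK2 ▸ hKV _ _ (by positivity) (by linarith)
    obtain ⟨FI, spI, eI, rI⟩ := lI σ φ hφ
    obtain ⟨FJ, spJ, eJ, rJ⟩ := lJ σ φ hφ
    rw [← hK4] at eI eJ
    have hlong : ∀ (u v w : ℂ) (t E : ℝ), b ≤ ‖u‖ → q ≤ ‖v‖ → t ≤ Nb → 0 ≤ E →
        E ≤ 2 * n * K1 * V → ‖u * v - w‖ ^ 2 ≤ t * ((6 * σ + 3) ^ d * E) → b * q / 2 ≤ ‖w‖ := by
      intro u v w t E hu hv ht hE0 hE1 hw
      have h1 : (6 * σ + 3 : ℝ) ^ d * E ≤ 2 * n * K1 * K2 := by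
        have := mul_le_mul_of_nonneg_left hE1 (by positivity : (0 : ℝ) ≤ (6 * σ + 3) ^ d)
        linarith [mul_le_mul_of_nonneg_left hK2V (by positivity : 0 ≤ 2 * n * K1)]
      have h2 : Nb * (2 * n * K1 * K2) ≤ (b * q / 2) ^ 2 := by
        rw [hNb, div_mul_eq_mul_div, div_le_iff₀ (by positivity)]
        linarith [mul_le_mul_of_nonneg_left hC1 (by positivity : 0 ≤ b ^ 2 * n)]
      have h3 := hw.trans ((mul_le_mul ht h1 (by positivity) (by positivity)).trans h2)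
      have h4 := (pow_le_pow_iff_left₀ (norm_nonneg _) (by positivity) two_ne_zero).1 h3
      have h5 := norm_sub_norm_le (u * v) w
      have h6 : b * q ≤ ‖u * v‖ := by
        rw [norm_mul]; exact mul_le_mul hu hv hq0.le (norm_nonneg _)
      linarith
    have cFI := spI.cont
    have cFJ := spJ.cont
    have h1 := cheb (U ∩ Metric.closedBall y (4 / 2 ^ k)) (h := fun x => ‖FI x * FJ x‖ ^ 2)
      (by fun_prop) (fun _ => by positivity) ((b * q / 2 * (b * q / 2)) ^ 2) (by positivity)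
      fun x hx => by
        refine pow_le_pow_left₀ (by positivity) ?_ 2
        rw [norm_mul]
        exact mul_le_mul (hlong _ _ _ _ _ hx.1.1 (φ1 x hx.2) hNI hEI0 hEI (rI x))
          (hlong _ _ _ _ _ hx.1.2 (φ1 x hx.2) hNJ hEJ0 hEJ (rJ x)) (by positivity) (norm_nonneg _)
    have h2 := spI.bil spJ ((2 * ((2 * T + 1) * σ : ℕ) + 1) ^ d) fun ζ => by
      refine card_le_box _ _ fun ξ hξ η hη i => ?_
      obtain ⟨a, ha, a1⟩ := mem_nb.1 (mem_filter.1 hξ).1
      obtain ⟨z, hz, z1⟩ := mem_nb.1 (mem_filter.1 hξ).2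
      obtain ⟨a', ha', a2⟩ := mem_nb.1 (mem_filter.1 hη).1
      obtain ⟨z', hz', z2⟩ := mem_nb.1 (mem_filter.1 hη).2
      have h3 := abs_le.1 (htr a ha a' ha' z hz z' hz' (2 * σ) (fun j => by
        have := a1 j
        have := a2 j
        have := z1 j
        have := z2 j
        simp only [Pi.sub_apply] at *
        rw [abs_le]
        push_cast
        constructor <;> linarith) i)
      have := a1 i
      have := a2 i
      rw [abs_le]
      push_cast at *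
      constructor <;> linarith
    have h3 : ((2 * ((2 * T + 1) * σ : ℕ) + 1 : ℝ)) ^ d * V ≤ K3 := by
      refine hK3 ▸ hKV _ _ (by positivity) ?_
      push_cast
      linarith [mul_le_mul_of_nonneg_left hσ' (by positivity : (0 : ℝ) ≤ T)]
    have h4 : (∫ x, ‖FI x‖ ^ 2) * ∫ x, ‖FJ x‖ ^ 2 ≤
        (K4 * (2 * n * K1 * V)) * (K4 * (2 * n * K1 * V)) :=
      mul_le_mul (eI.trans (mul_le_mul_of_nonneg_left hEI hK40.le))
        (eJ.trans (mul_le_mul_of_nonneg_left hEJ hK40.le))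
        (integral_nonneg fun _ => by positivity) (by positivity)
    have h5 := h1.trans (h2.trans (mul_le_mul_of_nonneg_left h4 (by positivity)))
    have h6 := mul_le_mul_of_nonneg_left h3 (by positivity : 0 ≤ 4 * (K4 * K1) ^ 2 * (n ^ 2 * V))
    have h7 := mul_le_mul_of_nonneg_left hlow (by positivity : 0 ≤ 4 * (K4 * K1) ^ 2 * K3)
    rw [hC2, div_div, div_mul_eq_mul_div, le_div_iff₀ (by positivity)]
    linarith
  have h1 := mul_le_mul_of_nonneg_left (hkey.trans (mul_le_mul_of_nonneg_left hhi (by positivity)))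
    (by positivity : 0 ≤ b ^ 6)
  have h2 : b ^ 6 * (C2 / b ^ 4 * (2 * m * n)) = 2 * C1 * C2 * n ^ 3 := by
    rw [hm]; field_simp
  have h3 : 0 ≤ C1 ^ 3 * n ^ 3 := by positivity
  rw [U2, ← hU]
  linarith

end E3CX
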