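import Mathlib

/-! Characters of the torus, second moments of trigonometric sums, spectra and a kernel. -/

namespace E3CX

open Finset MeasureTheory

/-- the torus -/
abbrev Om (d : ℕ) := Fin d → UnitAddCircle

/-- the character of the circle -/
noncomputable def ch (t : UnitAddCircle) : ℂ := (AddCircle.toCircle t : ℂ)

/-- the characters of the torus -/
noncomputable def e {d : ℕ} (ξ : Fin d → ℤ) (x : Om d) : ℂ := ch (∑ i, ξ i • x i)

lemma ch_add (s t : UnitAddCircle) : ch (s + t) = ch s * ch t := by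
  simp [ch, AddCircle.toCircle_add]

lemma ch_norm (s : UnitAddCircle) : ‖ch s‖ = 1 := Circle.norm_coe _

lemma ch_zero : ch 0 = 1 := by simp [ch]

lemma ch_neg (s : UnitAddCircle) : ch (-s) = (starRingEnd ℂ) (ch s) := by
  rw [ch, AddCircle.toCircle_neg, Circle.coe_inv_eq_conj, ch]

lemma ch_nsmul (n : ℕ) (s : UnitAddCircle) : ch (n • s) = ch s ^ n := by
  simp [ch, AddCircle.toCircle_nsmul]

lemma ch_coe (r : ℝ) : ch (r : UnitAddCircle) = Complex.exp (Complex.I * ((2 * Real.pi * r : ℝ) : ℂ)) := by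
  rw [ch, AddCircle.toCircle_apply_mk, Circle.coe_exp]
  congr 1
  push_cast
  ring

lemma ch_cont : Continuous ch :=
  continuous_subtype_val.comp AddCircle.continuous_toCircle

lemma ch_bounds (t : UnitAddCircle) : ‖ch t - 1‖ ≤ 7 * ‖t‖ ∧ 4 * ‖t‖ ≤ ‖ch t - 1‖ := by
  obtain ⟨r, hr, h2⟩ : ∃ r : ℝ, (r : UnitAddCircle) = t ∧ |r| ≤ 1 / 2 := by
    induction t using QuotientAddGroup.induction_on with
    | H x =>
      refine ⟨x - round x, ?_, abs_sub_round x⟩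
      rw [AddCircle.coe_sub]
      have : ((round x : ℝ) : UnitAddCircle) = 0 := by
        rw [AddCircle.coe_eq_zero_iff]
        exact ⟨round x, by simp⟩
      rw [this, sub_zero]
  subst hr
  have hn : ‖(r : UnitAddCircle)‖ = |r| := by
    rw [AddCircle.norm_coe_eq_abs_iff _ one_ne_zero]
    simpa using h2
  have hpi := Real.pi_pos
  rw [hn, ch_coe]
  constructor
  · refine Real.norm_exp_I_mul_ofReal_sub_one_le.trans ?_
    rw [Real.norm_eq_abs, abs_mul, abs_of_pos (by positivity : 0 < 2 * Real.pi)]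
    have := Real.pi_lt_d2
    nlinarith [abs_nonneg r]
  · rw [Complex.norm_exp_I_mul_ofReal_sub_one, Real.norm_eq_abs, abs_mul, abs_two]
    have h3 : |2 * Real.pi * r / 2| = Real.pi * |r| := by
      rw [show 2 * Real.pi * r / 2 = Real.pi * r by ring, abs_mul, abs_of_pos hpi]
    have h4 := Real.mul_abs_le_abs_sin (x := 2 * Real.pi * r / 2) (by rw [h3]; nlinarith)
    rw [h3, show 2 / Real.pi * (Real.pi * |r|) = 2 * |r| by field_simp] at h4
    linarith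

variable {d : ℕ}

lemma e_add (ξ η : Fin d → ℤ) (x : Om d) : e (ξ + η) x = e ξ x * e η x := by
  simp [e, add_smul, sum_add_distrib, ch_add]

lemma e_add' (ξ : Fin d → ℤ) (x y : Om d) : e ξ (x + y) = e ξ x * e ξ y := by
  simp [e, sum_add_distrib, ch_add]

lemma e_sub (ξ η : Fin d → ℤ) (x : Om d) : e (ξ - η) x = e ξ x * (starRingEnd ℂ) (e η x) := by
  rw [sub_eq_add_neg, e_add]
  simp [e, ← ch_neg]

lemma e_norm (ξ : Fin d → ℤ) (x : Om d) : ‖e ξ x‖ = 1 := ch_norm _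

@[fun_prop]
lemma e_cont (ξ : Fin d → ℤ) : Continuous (e ξ) := by
  refine ch_cont.comp ?_
  fun_prop

lemma vol_univ : (volume : Measure (Om d)) Set.univ = 1 := by
  rw [volume_pi, Measure.pi_univ]
  simp

lemma prob : IsProbabilityMeasure (volume : Measure (Om d)) := ⟨vol_univ⟩

lemma cint {E : Type} [NormedAddCommGroup E] {F : Om d → E} (h : Continuous F) :
    Integrable F := h.integrable_of_hasCompactSupport (HasCompactSupport.of_compactSpace F)

lemma int_e (ξ : Fin d → ℤ) : ∫ x, e ξ x = if ξ = 0 then 1 else 0 := by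
  split_ifs with h
  · have := prob (d := d)
    have : ∀ x : Om d, e ξ x = 1 := fun x => by simp [e, h, ch_zero]
    simp [this]
  · obtain ⟨i, hi⟩ := Function.ne_iff.1 h
    have hi' : (ξ i : ℝ) ≠ 0 := by exact_mod_cast hi
    refine integral_eq_zero_of_add_right_eq_neg
      (g := (Pi.single i (((1 / (2 * ξ i) : ℝ)) : UnitAddCircle) : Om d)) fun x => ?_
    have h1 : e ξ (Pi.single i (((1 / (2 * ξ i) : ℝ)) : UnitAddCircle) : Om d) = -1 := by
      rw [e, sum_eq_single i (fun j _ hj => by simp [Pi.single_eq_of_ne hj]) (by simp),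
        Pi.single_eq_same, ← AddCircle.coe_zsmul, ch_coe, ← Complex.exp_pi_mul_I]
      congr 1
      rw [zsmul_eq_mul, show 2 * Real.pi * (ξ i * (1 / (2 * ξ i))) = Real.pi by field_simp]
      ring
    rw [e_add', h1]
    ring

lemma pars {ι : Type} (S : Finset ι) (ω : ι → Fin d → ℤ) (c : ι → ℂ) :
    ∫ x, ‖∑ i ∈ S, c i * e (ω i) x‖ ^ 2 =
      ∑ i ∈ S, ∑ j ∈ S, if ω i = ω j then (c i * (starRingEnd ℂ) (c j)).re else 0 := by
  have h1 : ∀ x : Om d, ((‖∑ i ∈ S, c i * e (ω i) x‖ ^ 2 : ℝ) : ℂ) =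
      ∑ i ∈ S, ∑ j ∈ S, c i * (starRingEnd ℂ) (c j) * e (ω i - ω j) x := by
    intro x
    rw [Complex.ofReal_pow, ← Complex.mul_conj', map_sum, sum_mul_sum]
    refine sum_congr rfl fun i _ => sum_congr rfl fun j _ => ?_
    rw [e_sub, map_mul]
    ring
  have h2 : ((∫ x, ‖∑ i ∈ S, c i * e (ω i) x‖ ^ 2 : ℝ) : ℂ) =
      ∑ i ∈ S, ∑ j ∈ S, if ω i = ω j then c i * (starRingEnd ℂ) (c j) else 0 := by
    rw [← integral_complex_ofReal]
    simp_rw [h1]
    rw [integral_finsetSum _ fun i _ => cint (by fun_prop)]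
    refine sum_congr rfl fun i _ => ?_
    rw [integral_finsetSum _ fun j _ => cint (by fun_prop)]
    refine sum_congr rfl fun j _ => ?_
    rw [integral_const_mul, int_e]
    simp [sub_eq_zero]
  have h3 := congrArg Complex.re h2
  rw [Complex.ofReal_re, Complex.re_sum] at h3
  rw [h3]
  refine sum_congr rfl fun i _ => ?_
  rw [Complex.re_sum]
  refine sum_congr rfl fun j _ => ?_
  split_ifs <;> simp

lemma L2 {ι : Type} (S : Finset ι) (ω : ι → Fin d → ℤ) (c : ι → ℂ) (K : ℝ)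
    (hK : ∀ i ∈ S, ((S.filter fun j => ω i = ω j).card : ℝ) ≤ K) :
    ∫ x, ‖∑ i ∈ S, c i * e (ω i) x‖ ^ 2 ≤ K * ∑ i ∈ S, ‖c i‖ ^ 2 := by
  rw [pars]
  have h1 : ∀ i j, (if ω i = ω j then (c i * (starRingEnd ℂ) (c j)).re else 0) ≤
      (if ω i = ω j then ‖c i‖ ^ 2 / 2 else 0) + (if ω j = ω i then ‖c j‖ ^ 2 / 2 else 0) := by
    intro i j
    by_cases h : ω i = ω j
    · rw [if_pos h, if_pos h, if_pos h.symm]
      have := Complex.re_le_norm (c i * (starRingEnd ℂ) (c j))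
      rw [norm_mul, Complex.norm_conj] at this
      nlinarith [sq_nonneg (‖c i‖ - ‖c j‖)]
    · rw [if_neg h, if_neg h, if_neg (Ne.symm h), add_zero]
  have h2 : ∑ i ∈ S, ∑ j ∈ S, (if ω i = ω j then ‖c i‖ ^ 2 / 2 else 0) ≤
      K * (∑ i ∈ S, ‖c i‖ ^ 2) / 2 := by
    rw [mul_sum, sum_div]
    refine sum_le_sum fun i hi => ?_
    rw [← sum_filter, sum_const, nsmul_eq_mul]
    have := hK i hi
    nlinarith [sq_nonneg ‖c i‖]
  refine (sum_le_sum fun i _ => sum_le_sum fun j _ => h1 i j).trans ?_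
  simp_rw [sum_add_distrib]
  rw [sum_comm (f := fun i j => if ω j = ω i then ‖c j‖ ^ 2 / 2 else 0)]
  linarith

lemma pars1 (S : Finset (Fin d → ℤ)) (c : (Fin d → ℤ) → ℂ) :
    ∫ x, ‖∑ i ∈ S, c i * e i x‖ ^ 2 = ∑ i ∈ S, ‖c i‖ ^ 2 := by
  rw [pars S (fun i => i)]
  refine sum_congr rfl fun i hi => ?_
  rw [sum_ite_eq, if_pos hi, Complex.mul_conj', ← Complex.ofReal_pow, Complex.ofReal_re]

/-- trigonometric polynomials with frequencies in `S` -/
def Sp (S : Finset (Fin d → ℤ)) (F : Om d → ℂ) : Prop :=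
  F ∈ Submodule.span ℂ (e '' (S : Set (Fin d → ℤ)))

lemma Sp.ex {S : Finset (Fin d → ℤ)} {F : Om d → ℂ} (h : Sp S F) :
    ∃ c : (Fin d → ℤ) → ℂ, ∀ x, F x = ∑ i ∈ S, c i * e i x := by
  obtain ⟨c, hc⟩ := (Submodule.mem_span_image_finset_iff_exists_fun' ℂ).1 h
  exact ⟨c, fun x => by rw [← hc]; simp⟩

lemma Sp.cont {S : Finset (Fin d → ℤ)} {F : Om d → ℂ} (h : Sp S F) : Continuous F := by
  obtain ⟨c, hc⟩ := h.ex
  rw [funext hc]
  fun_prop

lemma Sp.of {ι : Type} {S : Finset (Fin d → ℤ)} (T : Finset ι) (ω : ι → Fin d → ℤ) (c : ι → ℂ)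
    (h : ∀ i ∈ T, ω i ∈ S) : Sp S fun x => ∑ i ∈ T, c i * e (ω i) x := by
  have : (fun x => ∑ i ∈ T, c i * e (ω i) x) = ∑ i ∈ T, c i • e (ω i) := by
    funext x; simp
  rw [Sp, this]
  exact Submodule.sum_mem _ fun i hi =>
    Submodule.smul_mem _ _ (Submodule.subset_span ⟨_, h i hi, rfl⟩)

lemma Sp.mul {S S' S'' : Finset (Fin d → ℤ)} {F G : Om d → ℂ} (h : Sp S F) (h' : Sp S' G)
    (hS : ∀ a ∈ S, ∀ b ∈ S', a + b ∈ S'') : Sp S'' fun x => F x * G x := by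
  obtain ⟨c, hc⟩ := h.ex
  obtain ⟨c', hc'⟩ := h'.ex
  have := Sp.of (S := S'') (S ×ˢ S') (fun q => q.1 + q.2) (fun q => c q.1 * c' q.2)
    fun q hq => hS _ (mem_product.1 hq).1 _ (mem_product.1 hq).2
  convert this using 2 with x
  rw [hc, hc', sum_mul_sum, sum_product]
  refine sum_congr rfl fun i _ => sum_congr rfl fun j _ => ?_
  rw [e_add]
  ring

lemma Sp.sup {S : Finset (Fin d → ℤ)} {F : Om d → ℂ} (h : Sp S F) (x : Om d) :
    ‖F x‖ ^ 2 ≤ S.card * ∫ y, ‖F y‖ ^ 2 := by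
  obtain ⟨c, hc⟩ := h.ex
  simp_rw [hc]
  rw [pars1]
  refine le_trans ?_ (sq_sum_le_card_mul_sum_sq (s := S) (f := fun i => ‖c i‖))
  refine pow_le_pow_left₀ (norm_nonneg _) ((norm_sum_le _ _).trans (le_of_eq ?_)) 2
  simp [e_norm]

lemma Sp.orth {ι : Type} (T : Finset ι) (S : ι → Finset (Fin d → ℤ)) (F : ι → Om d → ℂ) (K : ℝ)
    (h : ∀ s ∈ T, Sp (S s) (F s)) (hK : ∀ ξ, ((T.filter fun s => ξ ∈ S s).card : ℝ) ≤ K) :
    ∫ x, ‖∑ s ∈ T, F s x‖ ^ 2 ≤ K * ∑ s ∈ T, ∫ x, ‖F s x‖ ^ 2 := by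
  classical
  choose! c hc using fun s hs => (h s hs).ex
  have h1 := L2 (T.sigma S) (fun q => q.2) (fun q => c q.1 q.2) K fun q _ => by
    refine le_trans ?_ (hK q.2)
    refine Nat.cast_le.2 (card_le_card_of_injOn (fun r => r.1) (fun r hr => ?_) ?_)
    · simp only [coe_filter, mem_sigma, Set.mem_ofPred_eq] at hr ⊢
      exact ⟨hr.1.1, hr.2 ▸ hr.1.2⟩
    · rintro ⟨r1, r2⟩ hr ⟨s1, s2⟩ hs hrs
      simp only [coe_filter, Set.mem_ofPred_eq] at hr hs hrs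
      rw [hrs, ← hr.2, ← hs.2]
  simp_rw [sum_sigma] at h1
  have h2 : ∀ x, ∑ s ∈ T, F s x = ∑ s ∈ T, ∑ i ∈ S s, c s i * e i x :=
    fun x => sum_congr rfl fun s hs => hc s hs x
  have h3 : ∑ s ∈ T, ∫ x, ‖F s x‖ ^ 2 = ∑ s ∈ T, ∑ i ∈ S s, ‖c s i‖ ^ 2 :=
    sum_congr rfl fun s hs => by simp_rw [hc s hs]; exact pars1 _ _
  simp_rw [h2]
  rw [h3]
  exact h1

lemma Sp.bil {S S' : Finset (Fin d → ℤ)} {F G : Om d → ℂ} (h : Sp S F) (h' : Sp S' G) (R : ℝ)
    (hR : ∀ ζ, ((S.filter fun ξ => ζ - ξ ∈ S').card : ℝ) ≤ R) :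
    ∫ x, ‖F x * G x‖ ^ 2 ≤ R * ((∫ x, ‖F x‖ ^ 2) * ∫ x, ‖G x‖ ^ 2) := by
  obtain ⟨c, hc⟩ := h.ex
  obtain ⟨c', hc'⟩ := h'.ex
  have h1 := L2 (S ×ˢ S') (fun q => q.1 + q.2) (fun q => c q.1 * c' q.2) R fun q _ => by
    refine le_trans ?_ (hR (q.1 + q.2))
    refine Nat.cast_le.2 (card_le_card_of_injOn (fun r => r.1) (fun r hr => ?_) ?_)
    · simp only [coe_filter, mem_product, Set.mem_ofPred_eq] at hr ⊢
      exact ⟨hr.1.1, by rw [hr.2, add_sub_cancel_left]; exact hr.1.2⟩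
    · rintro ⟨r1, r2⟩ hr ⟨s1, s2⟩ hs hrs
      simp only [coe_filter, Set.mem_ofPred_eq] at hr hs hrs
      have h3 := hr.2.symm.trans hs.2
      rw [hrs] at h3 ⊢
      rw [add_left_cancel h3]
  have h2 : ∀ x, F x * G x = ∑ q ∈ S ×ˢ S', c q.1 * c' q.2 * e (q.1 + q.2) x := by
    intro x
    rw [hc, hc', sum_mul_sum, sum_product]
    refine sum_congr rfl fun i _ => sum_congr rfl fun j _ => ?_
    rw [e_add]
    ring
  simp_rw [h2, hc, hc', pars1]
  refine h1.trans (le_of_eq ?_)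
  rw [sum_mul_sum, sum_product]
  simp_rw [norm_mul, mul_pow]

/-- the box of frequencies -/
noncomputable def Box (d σ : ℕ) : Finset (Fin d → ℤ) := Fintype.piFinset fun _ => Icc (0 : ℤ) σ

lemma mem_Box {σ : ℕ} {ξ : Fin d → ℤ} : ξ ∈ Box d σ ↔ ∀ i, 0 ≤ ξ i ∧ ξ i ≤ σ := by
  simp [Box]

lemma Sp.prod {ι : Type} (T : Finset ι) (F : ι → Om d → ℂ) (σ : ℕ)
    (h : ∀ s ∈ T, Sp (Box d σ) (F s)) : Sp (Box d (T.card * σ)) fun x => ∏ s ∈ T, F s x := by
  classical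
  induction T using Finset.induction_on with
  | empty =>
    have := Sp.of (S := Box d 0) {()} (fun _ => 0) (fun _ => 1) (by simp [mem_Box])
    simpa [e, ch_zero] using this
  | insert a T ha ih =>
    simp_rw [prod_insert ha]
    refine (h a (mem_insert_self _ _)).mul (ih fun s hs => h s (mem_insert_of_mem hs)) ?_
    intro u hu v hv
    rw [mem_Box] at *
    intro i
    have h1 := hu i
    have h2 := hv i
    rw [card_insert_of_notMem ha]
    push_cast at *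
    simp only [Pi.add_apply]
    constructor <;> linarith

/-- normalised Dirichlet kernel -/
noncomputable def Dk (ρ : ℕ) (t : UnitAddCircle) : ℂ := ∑ j ∈ range (ρ + 1), ch t ^ j / (ρ + 1)

lemma Dk_le (ρ : ℕ) (t : UnitAddCircle) : ‖Dk ρ t‖ ≤ 1 := by
  refine (norm_sum_le _ _).trans (le_of_eq ?_)
  have : ‖(ρ + 1 : ℂ)‖ = ρ + 1 := by exact_mod_cast Complex.norm_natCast (ρ + 1)
  simp only [norm_div, norm_pow, ch_norm, one_pow, this, sum_const, card_range, nsmul_eq_mul]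
  push_cast
  field_simp

lemma Dk_decay (ρ : ℕ) (t : UnitAddCircle) : ‖Dk ρ t‖ * (2 * (ρ + 1) * ‖t‖) ≤ 1 := by
  have h0 : ‖(ρ + 1 : ℂ)‖ = ρ + 1 := by exact_mod_cast Complex.norm_natCast (ρ + 1)
  have h1 : Dk ρ t * (ρ + 1) * (ch t - 1) = ch t ^ (ρ + 1) - 1 := by
    rw [← geom_sum_mul, Dk, ← sum_div, div_mul_cancel₀ _ (by exact_mod_cast Nat.succ_ne_zero ρ)]
  have h2 : ‖ch t ^ (ρ + 1) - 1‖ ≤ 2 := by
    refine (norm_sub_le _ _).trans ?_
    rw [norm_pow, ch_norm]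
    norm_num
  rw [← h1, norm_mul, norm_mul, h0] at h2
  have h3 := mul_le_mul_of_nonneg_left (ch_bounds t).2
    (by positivity : 0 ≤ ‖Dk ρ t‖ * ((ρ : ℝ) + 1))
  nlinarith

lemma Dk_ge (ρ : ℕ) (t : UnitAddCircle) (h : ρ * ‖t‖ ≤ 1 / 14) : 1 / 2 ≤ ‖Dk ρ t‖ := by
  have h0 : ‖(ρ + 1 : ℂ)‖ = ρ + 1 := by exact_mod_cast Complex.norm_natCast (ρ + 1)
  have hz : (ρ + 1 : ℂ) ≠ 0 := by exact_mod_cast Nat.succ_ne_zero ρ
  have h1 : Dk ρ t - 1 = ∑ j ∈ range (ρ + 1), (ch t ^ j - 1) / (ρ + 1) := by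
    simp_rw [sub_div]
    rw [sum_sub_distrib, Dk]
    simp only [sum_const, card_range, nsmul_eq_mul]
    push_cast
    field_simp
  have h2 : ‖Dk ρ t - 1‖ ≤ 1 / 2 := by
    rw [h1]
    refine (norm_sum_le _ _).trans ?_
    refine (sum_le_card_nsmul _ _ (1 / 2 / (ρ + 1) : ℝ) fun j hj => ?_).trans (le_of_eq ?_)
    · rw [norm_div, h0, ← ch_nsmul]
      refine div_le_div_of_nonneg_right ((ch_bounds _).1.trans ?_) (by positivity)
      have h3 : ‖j • t‖ ≤ j * ‖t‖ := norm_nsmul_le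
      have h4 : (j : ℝ) ≤ ρ := by exact_mod_cast Nat.lt_succ_iff.1 (mem_range.1 hj)
      nlinarith [norm_nonneg t]
    · simp only [card_range, nsmul_eq_mul]
      push_cast
      field_simp
  have := norm_sub_norm_le (1 : ℂ) (Dk ρ t)
  rw [norm_sub_rev, norm_one] at this
  linarith

lemma kernel (k : ℕ) (y : Om d) : ∃ (σ : ℕ) (φ : Om d → ℂ), σ ≤ d * d * 2 ^ k ∧ Sp (Box d σ) φ ∧
    (∀ x, dist x y ≤ 4 / 2 ^ k → (1 / 2 : ℝ) ^ (d * d) ≤ ‖φ x‖) ∧ (∀ x, ‖φ x‖ ≤ 1) ∧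
    ∀ x, 0 < d → ‖φ x‖ * (2 ^ k * dist x y) ^ d ≤ 32 ^ d := by
  set ρ := 2 ^ k / 64 with hρ
  have hρ1 : (ρ : ℝ) * 64 ≤ 2 ^ k := by exact_mod_cast Nat.div_mul_le_self (2 ^ k) 64
  have hρ2 : (2 : ℝ) ^ k ≤ 64 * (ρ + 1) := by
    have : 2 ^ k ≤ 64 * (ρ + 1) := by omega
    exact_mod_cast this
  refine ⟨(univ : Finset (Fin d × Fin d)).card * ρ,
    fun x => ∏ q : Fin d × Fin d, Dk ρ (x q.1 - y q.1), ?_, ?_, fun x hx => ?_, fun x => ?_,
    fun x hd => ?_⟩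
  · simp only [card_univ, Fintype.card_prod, Fintype.card_fin]
    exact Nat.mul_le_mul_left _ (Nat.div_le_self _ _)
  · refine Sp.prod univ (fun (q : Fin d × Fin d) (x : Om d) => Dk ρ (x q.1 - y q.1)) ρ fun q _ => ?_
    have := Sp.of (S := Box d ρ) (range (ρ + 1)) (fun j => Pi.single q.1 (j : ℤ))
      (fun j => ch (-y q.1) ^ j / (ρ + 1)) fun j hj => by
        rw [mem_Box]
        intro i
        have := mem_range.1 hj
        rw [Pi.single_apply]
        split_ifs <;> omega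
    convert this using 2 with x
    refine sum_congr rfl fun j _ => ?_
    rw [e, sum_eq_single q.1 (fun i _ hi => by simp [Pi.single_eq_of_ne hi]) (by simp),
      Pi.single_eq_same, natCast_zsmul, ch_nsmul, sub_eq_add_neg, ch_add]
    ring
  · rw [norm_prod]
    refine le_trans (le_of_eq (by simp)) (prod_le_prod (f := fun _ => (1 / 2 : ℝ))
      (fun _ _ => by norm_num) fun q _ => Dk_ge _ _ ?_)
    have h1 : ‖x q.1 - y q.1‖ ≤ 4 / 2 ^ k := by
      rw [← dist_eq_norm]; exact (dist_le_pi_dist x y q.1).trans hx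
    rw [le_div_iff₀ (by positivity)] at h1
    nlinarith [norm_nonneg (x q.1 - y q.1)]
  · rw [norm_prod]
    exact prod_le_one (fun _ _ => norm_nonneg _) fun q _ => Dk_le _ _
  · have : Nonempty (Fin d) := ⟨⟨0, hd⟩⟩
    obtain ⟨i, hi⟩ : ∃ i, dist x y ≤ dist (x i) (y i) := by
      by_contra hc
      push Not at hc
      exact lt_irrefl _ ((dist_pi_lt_iff (lt_of_le_of_lt dist_nonneg (hc ⟨0, hd⟩))).2 hc)
    have h1 : ‖∏ q : Fin d × Fin d, Dk ρ (x q.1 - y q.1)‖ ≤ ‖Dk ρ (x i - y i)‖ ^ d := by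
      rw [norm_prod, Fintype.prod_prod_type]
      simp only [prod_const, card_univ, Fintype.card_fin]
      rw [← mul_prod_erase _ _ (mem_univ i)]
      exact mul_le_of_le_one_right (by positivity) (prod_le_one (fun _ _ => by positivity)
        fun j _ => pow_le_one₀ (norm_nonneg _) (Dk_le _ _))
    refine (mul_le_mul_of_nonneg_right h1 (by positivity)).trans ?_
    rw [← mul_pow]
    refine pow_le_pow_left₀ (by positivity) ?_ d
    have h2 := Dk_decay ρ (x i - y i)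
    rw [dist_eq_norm (x i)] at hi
    have h3 : 2 ^ k * dist x y ≤ 64 * (ρ + 1) * ‖x i - y i‖ :=
      mul_le_mul hρ2 hi dist_nonneg (by positivity)
    nlinarith [mul_le_mul_of_nonneg_left h3 (norm_nonneg (Dk ρ (x i - y i)))]

lemma vol_ball (k : ℕ) (y : Om d) :
    (1 / 2 ^ k : ℝ) ^ d ≤ (volume : Measure (Om d)).real (Metric.closedBall y (1 / 2 ^ k)) ∧
    (volume : Measure (Om d)).real (Metric.closedBall y (1 / 2 ^ k)) ≤ (2 / 2 ^ k) ^ d := by
  have h0 : (0 : ℝ) < 1 / 2 ^ k := by positivity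
  have h1 : (1 / 2 ^ k : ℝ) ≤ 1 := by
    rw [div_le_one (by positivity)]; exact one_le_pow₀ (by norm_num)
  have h2 : (0 : ℝ) ≤ min 1 (2 * (1 / 2 ^ k)) := by positivity
  rw [measureReal_def, volume_pi_closedBall _ h0.le]
  simp only [AddCircle.volume_closedBall, prod_const, card_univ, Fintype.card_fin,
    ENNReal.toReal_pow, ENNReal.toReal_ofReal h2]
  exact ⟨pow_le_pow_left₀ h0.le (le_min h1 (by linarith)) d,
    pow_le_pow_left₀ h2 ((min_le_right _ _).trans (le_of_eq (by ring))) d⟩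

end E3CX
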