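import Mathlib

/-! Morton order: a linear order on `ℕ^d` in which every dyadic cube is an interval, and the
blocks of consecutive points it gives. -/

namespace E3CX

open Finset

/-- lowest binary digits of a vector as one digit in base `2^d` -/
def dig {d : ℕ} (x : Fin d → ℕ) : ℕ :=
  (finFunctionFinEquiv (fun i => (⟨x i % 2, Nat.mod_lt _ (by norm_num)⟩ : Fin 2)) : Fin (2 ^ d))

/-- Morton key with `L` digits -/
def key {d : ℕ} : ℕ → (Fin d → ℕ) → ℕ
  | 0, _ => 0
  | L + 1, x => 2 ^ d * key L (fun i => x i / 2) + dig x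

lemma dig_lt {d : ℕ} (x : Fin d → ℕ) : dig x < 2 ^ d := Fin.is_lt _

lemma dig_inj {d : ℕ} {x y : Fin d → ℕ} (h : dig x = dig y) (i : Fin d) : x i % 2 = y i % 2 := by
  have h1 := finFunctionFinEquiv.injective (Fin.ext h)
  have h2 := congrFun h1 i
  simpa using h2

lemma key_div {d : ℕ} (L r : ℕ) (x : Fin d → ℕ) :
    key (L + r) x / (2 ^ d) ^ r = key L (fun i => x i / 2 ^ r) := by
  induction r generalizing x with
  | zero => simp
  | succ r ih =>
    have h0 : 0 < 2 ^ d := by positivity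
    have h1 : key (L + (r + 1)) x / 2 ^ d = key (L + r) (fun i => x i / 2) := by
      show (2 ^ d * key (L + r) (fun i => x i / 2) + dig x) / 2 ^ d = _
      rw [Nat.mul_add_div h0, Nat.div_eq_of_lt (dig_lt x), add_zero]
    rw [pow_succ', ← Nat.div_div_eq_div_mul, h1, ih]
    congr 1
    funext i
    rw [Nat.div_div_eq_div_mul, pow_succ']

lemma key_inj {d : ℕ} (L : ℕ) (x y : Fin d → ℕ) (hx : ∀ i, x i < 2 ^ L) (hy : ∀ i, y i < 2 ^ L)
    (h : key L x = key L y) : x = y := by
  induction L generalizing x y with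
  | zero =>
    funext i
    have := hx i
    have := hy i
    simp at *
    omega
  | succ L ih =>
    have h0 : 0 < 2 ^ d := by positivity
    have h' : 2 ^ d * key L (fun i => x i / 2) + dig x = 2 ^ d * key L (fun i => y i / 2) + dig y := h
    have h1 : key L (fun i => x i / 2) = key L (fun i => y i / 2) := by
      have := congrArg (· / 2 ^ d) h'
      simpa [Nat.mul_add_div h0, Nat.div_eq_of_lt (dig_lt x), Nat.div_eq_of_lt (dig_lt y)] using this
    have h2 : dig x = dig y := by rw [h1] at h'; omega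
    have h3 := ih _ _ (fun i => by have := hx i; rw [pow_succ] at this; omega)
      (fun i => by have := hy i; rw [pow_succ] at this; omega) h1
    funext i
    have h4 := congrFun h3 i
    have h5 := dig_inj h2 i
    omega

lemma key_convex {d : ℕ} (L r : ℕ) (x y z : Fin d → ℕ) (hx : ∀ i, x i < 2 ^ L)
    (hy : ∀ i, y i < 2 ^ L) (h1 : key L x ≤ key L y) (h2 : key L y ≤ key L z)
    (h : ∀ i, x i / 2 ^ r = z i / 2 ^ r) (i : Fin d) : y i / 2 ^ r = x i / 2 ^ r := by
  rcases le_or_gt r L with hr | hr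
  · obtain ⟨k, rfl⟩ := Nat.exists_eq_add_of_le' hr
    have e1 : key (k + r) x / (2 ^ d) ^ r = key (k + r) z / (2 ^ d) ^ r := by
      rw [key_div, key_div]; congr 1; funext j; exact h j
    have e2 : key (k + r) y / (2 ^ d) ^ r = key (k + r) x / (2 ^ d) ^ r :=
      le_antisymm (e1 ▸ Nat.div_le_div_right h2) (Nat.div_le_div_right h1)
    rw [key_div, key_div] at e2
    have hb : ∀ w : Fin d → ℕ, (∀ j, w j < 2 ^ (k + r)) → ∀ j, w j / 2 ^ r < 2 ^ k := by
      intro w hw j
      rw [Nat.div_lt_iff_lt_mul (by positivity), ← pow_add]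
      exact hw j
    exact congrFun (key_inj k _ _ (hb y hy) (hb x hx) e2) i
  · have hp : 2 ^ L < 2 ^ r := Nat.pow_lt_pow_right (by norm_num) hr
    rw [Nat.div_eq_of_lt ((hy i).trans hp), Nat.div_eq_of_lt ((hx i).trans hp)]

/-- an injective rank on a finite set of integer vectors for which the cubes of a dyadic grid
are intervals -/
lemma exists_rank {d : ℕ} (X : Finset (Fin d → ℤ)) :
    ∃ (o : ℤ) (k : (Fin d → ℤ) → ℕ), Set.InjOn k X ∧ ∀ r : ℕ, ∀ x ∈ X, ∀ y ∈ X, ∀ z ∈ X,
      k x ≤ k y → k y ≤ k z → (∀ i, (x i + o) / 2 ^ r = (z i + o) / 2 ^ r) →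
      ∀ i, (y i + o) / 2 ^ r = (x i + o) / 2 ^ r := by
  obtain ⟨B, hB⟩ : ∃ B : ℕ, ∀ x ∈ X, ∀ i, |x i| ≤ B := by
    refine ⟨X.sup fun x => univ.sup fun i => (x i).natAbs, fun x hx i => ?_⟩
    have h1 : (x i).natAbs ≤ univ.sup fun i => (x i).natAbs :=
      le_sup (f := fun i => (x i).natAbs) (mem_univ i)
    have h2 := le_sup (f := fun x : Fin d → ℤ => univ.sup fun i => (x i).natAbs) hx
    have h3 := h1.trans h2
    rw [Int.abs_eq_natAbs]
    exact_mod_cast h3
  have hc : ∀ x ∈ X, ∀ i, (((x i + B).toNat : ℕ) : ℤ) = x i + B := by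
    intro x hx i
    have := abs_le.1 (hB x hx i)
    exact Int.toNat_of_nonneg (by omega)
  have hl : ∀ x ∈ X, ∀ i, (x i + B).toNat < 2 ^ (2 * B) := by
    intro x hx i
    have h1 := abs_le.1 (hB x hx i)
    have h2 : 2 * B < 2 ^ (2 * B) := Nat.lt_two_pow_self
    have h3 := hc x hx i
    omega
  refine ⟨B, fun x => key (2 * B) fun i => (x i + B).toNat, fun x hx y hy h => ?_, ?_⟩
  · have h1 := key_inj _ _ _ (hl x hx) (hl y hy) h
    funext i
    have h2 := congrFun h1 i
    have h3 := hc x hx i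
    have h4 := hc y hy i
    omega
  · intro r x hx y hy z hz h1 h2 h i
    have h3 := key_convex (2 * B) r _ _ _ (hl x hx) (hl y hy) h1 h2 (fun j => by
      have := h j
      rw [← hc x hx j, ← hc z hz j] at this
      exact_mod_cast this) i
    rw [← hc x hx i, ← hc y hy i]
    exact_mod_cast h3

/-- blocks of consecutive points of mass about `m` -/
lemma exists_blocks {α : Type} [DecidableEq α] {d : ℕ} (X : Finset α) (p : α → Fin d → ℤ)
    (hp : Set.InjOn p X) (w : α → ℝ) (hw : ∀ a, 0 ≤ w a) (m : ℝ) (hm : 0 < m) :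
    ∃ β : α → ℕ, ((X.image β).card : ℝ) ≤ (∑ a ∈ X, w a) / m + 1 ∧
      ∑ q ∈ (X ×ˢ X).filter (fun q => q.1 ≠ q.2 ∧ β q.1 = β q.2), w q.1 * w q.2 ≤
        2 * m * ∑ a ∈ X, w a ∧
      ∀ σ : ℕ, ∃ Lg : Finset ℕ, Lg ⊆ X.image β ∧
        (∀ a ∈ X, ∀ b ∈ X, β a = β b → β a ∉ Lg → ∀ i, |p a i - p b i| ≤ 2 * σ + 1) ∧
        ∀ ξ : Fin d → ℤ, (Lg.filter fun s => ∃ a ∈ X, β a = s ∧
          ∀ i, 0 ≤ ξ i - p a i ∧ ξ i - p a i ≤ σ).card ≤ 2 ^ (d + 1) := by
  classical
  obtain ⟨o, k0, hk0, hcv⟩ := exists_rank (X.image p)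
  set k : α → ℕ := fun a => k0 (p a) with hk
  have hki : ∀ a ∈ X, ∀ b ∈ X, k a = k b → a = b := fun a ha b hb h =>
    hp ha hb (hk0 (mem_coe.2 (mem_image_of_mem _ ha)) (mem_coe.2 (mem_image_of_mem _ hb)) h)
  set cum : α → ℝ := fun a => ∑ b ∈ X.filter (fun b => k b < k a), w b with hcum
  have hc0 : ∀ a, 0 ≤ cum a := fun a => sum_nonneg fun b _ => hw b
  have hcm : ∀ a b, k a ≤ k b → cum a ≤ cum b := fun a b h =>
    sum_le_sum_of_subset_of_nonneg (monotone_filter_right _ fun c _ hc => lt_of_lt_of_le hc h)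
      fun c _ _ => hw c
  set β : α → ℕ := fun a => ⌊cum a / m⌋₊ with hβ
  have hβm : ∀ a b, k a ≤ k b → β a ≤ β b := fun a b h =>
    Nat.floor_le_floor (div_le_div_of_nonneg_right (hcm a b h) hm.le)
  have hn0 : 0 ≤ ∑ a ∈ X, w a := sum_nonneg fun b _ => hw b
  refine ⟨β, ?_, ?_, fun σ => ?_⟩
  · have h1 : X.image β ⊆ range (⌊(∑ a ∈ X, w a) / m⌋₊ + 1) := by
      intro s hs
      obtain ⟨a, _, rfl⟩ := mem_image.1 hs
      refine mem_range.2 (Nat.lt_succ_of_le (Nat.floor_le_floor ?_))
      exact div_le_div_of_nonneg_right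
        (sum_le_sum_of_subset_of_nonneg (filter_subset _ _) fun c _ _ => hw c) hm.le
    have h2 := card_le_card h1
    rw [card_range] at h2
    have h3 := Nat.floor_le (div_nonneg hn0 hm.le)
    have h4 : ((X.image β).card : ℝ) ≤ (⌊(∑ a ∈ X, w a) / m⌋₊ : ℝ) + 1 := by exact_mod_cast h2
    linarith
  · have h1 : ∀ b, ∑ a ∈ X, (if k a < k b ∧ β a = β b then w a else 0) ≤ m := by
      intro b
      rw [← sum_filter]
      set S := X.filter (fun a => k a < k b ∧ β a = β b) with hS
      rcases S.eq_empty_or_nonempty with h | h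
      · rw [h]; simpa using hm.le
      obtain ⟨a0, ha0, hmin⟩ := exists_min_image S k h
      have h2 : cum a0 + ∑ a ∈ S, w a ≤ cum b := by
        rw [hcum]
        simp only
        rw [← sum_union (disjoint_left.2 fun c hc hc' =>
          absurd (mem_filter.1 hc).2 (not_lt.2 (hmin c hc')))]
        refine sum_le_sum_of_subset_of_nonneg (union_subset (fun c hc => ?_) fun c hc => ?_)
          fun c _ _ => hw c
        · exact mem_filter.2 ⟨(mem_filter.1 hc).1, (mem_filter.1 hc).2.trans (mem_filter.1 ha0).2.1⟩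
        · exact mem_filter.2 ⟨(mem_filter.1 hc).1, (mem_filter.1 hc).2.1⟩
      have h3 : (β a0 : ℝ) ≤ cum a0 / m := Nat.floor_le (div_nonneg (hc0 a0) hm.le)
      have h4 : cum b / m < β b + 1 := Nat.lt_floor_add_one _
      rw [(mem_filter.1 ha0).2.2, le_div_iff₀ hm] at h3
      rw [div_lt_iff₀ hm] at h4
      linarith
    have h2 : ∑ b ∈ X, ∑ a ∈ X, (if k a < k b ∧ β a = β b then w a else 0) * w b ≤
        m * ∑ a ∈ X, w a := by
      rw [mul_sum]
      refine sum_le_sum fun b _ => ?_
      rw [← sum_mul]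
      exact mul_le_mul_of_nonneg_right (h1 b) (hw b)
    rw [sum_filter, sum_product]
    have h3 : ∀ a ∈ X, ∀ b ∈ X, (if a ≠ b ∧ β a = β b then w a * w b else 0) ≤
        (if k a < k b ∧ β a = β b then w a else 0) * w b +
        (if k b < k a ∧ β b = β a then w b else 0) * w a := by
      intro a ha b hb
      have := mul_nonneg (hw a) (hw b)
      by_cases h : a ≠ b ∧ β a = β b
      · rw [if_pos h]
        rcases lt_trichotomy (k a) (k b) with h' | h' | h'
        · rw [if_pos ⟨h', h.2⟩, if_neg fun x => absurd x.1 (not_lt.2 h'.le)]; linarith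
        · exact absurd (hki a ha b hb h') h.1
        · rw [if_neg fun x => absurd x.1 (not_lt.2 h'.le), if_pos ⟨h', h.2.symm⟩]; linarith
      · rw [if_neg h]
        have := hw a
        have := hw b
        positivity
    refine (sum_le_sum fun a ha => sum_le_sum fun b hb => h3 a ha b hb).trans ?_
    simp_rw [sum_add_distrib]
    rw [sum_comm (f := fun a b => (if k a < k b ∧ β a = β b then w a else 0) * w b)]
    linarith
  · obtain ⟨M, r, hM, hM1, hM2⟩ : ∃ (M : ℤ) (r : ℕ), M = 2 ^ r ∧ (σ : ℤ) < M ∧ M ≤ 2 * σ + 2 := by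
      refine ⟨_, Nat.log 2 (σ + 1) + 1, rfl, ?_, ?_⟩
      · have := Nat.lt_pow_succ_log_self (b := 2) (by norm_num) (σ + 1)
        have h2 : σ < 2 ^ (Nat.log 2 (σ + 1) + 1) := by omega
        exact_mod_cast h2
      · have := Nat.pow_log_le_self 2 (x := σ + 1) (by omega)
        have h2 : 2 ^ (Nat.log 2 (σ + 1) + 1) ≤ 2 * σ + 2 := by rw [pow_succ]; omega
        exact_mod_cast h2
    have hM0 : 0 < M := by omega
    set cube : α → Fin d → ℤ := fun a i => (p a i + o) / M with hcube
    have hcv' : ∀ x ∈ X, ∀ y ∈ X, ∀ z ∈ X, k x ≤ k y → k y ≤ k z → cube x = cube z →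
        cube y = cube x := by
      intro x hx y hy z hz h1 h2 h3
      funext i
      have := hcv r _ (mem_image_of_mem _ hx) _ (mem_image_of_mem _ hy) _ (mem_image_of_mem _ hz)
        h1 h2 (fun j => by rw [← hM]; exact congrFun h3 j) i
      rw [← hM] at this
      exact this
    set Lg := (X.image β).filter fun s => ∃ a ∈ X, ∃ b ∈ X, β a = s ∧ β b = s ∧ cube a ≠ cube b
      with hLg
    refine ⟨Lg, filter_subset _ _, fun a ha b hb hab hl i => ?_, fun ξ => ?_⟩
    · have h1 : cube a = cube b := by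
        by_contra hc
        exact hl (mem_filter.2 ⟨mem_image_of_mem _ ha, a, ha, b, hb, rfl, hab.symm, hc⟩)
      have h2 : (p a i + o) / M = (p b i + o) / M := congrFun h1 i
      have h3 := Int.mul_ediv_add_emod (p a i + o) M
      have h4 := Int.mul_ediv_add_emod (p b i + o) M
      have h5 := Int.emod_nonneg (p a i + o) hM0.ne'
      have h6 := Int.emod_nonneg (p b i + o) hM0.ne'
      have h7 := Int.emod_lt_of_pos (p a i + o) hM0
      have h8 := Int.emod_lt_of_pos (p b i + o) hM0
      rw [h2] at h3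
      rw [abs_le]
      constructor <;> linarith
    · have h1 : ∀ κ, (Lg.filter fun s => ∃ a ∈ X, β a = s ∧ cube a = κ).card ≤ 2 := by
        intro κ
        set Y := X.filter fun a => cube a = κ with hY
        rcases Y.eq_empty_or_nonempty with h | h
        · rw [filter_eq_empty_iff.2, card_empty]
          · omega
          · rintro s - ⟨a, ha, -, h2⟩
            exact filter_eq_empty_iff.1 h ha h2
        obtain ⟨u, hu, hmin⟩ := exists_min_image Y k h
        obtain ⟨v, hv, hmax⟩ := exists_max_image Y k h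
        refine le_trans (card_le_card (t := {β u, β v}) fun s hs => ?_) card_le_two
        obtain ⟨hs1, a, ha, has, hak⟩ := mem_filter.1 hs
        obtain ⟨-, a1, ha1, b1, hb1, h3, h4, h5⟩ := mem_filter.1 hs1
        obtain ⟨z, hz, hzs, hzk⟩ : ∃ z ∈ X, β z = s ∧ cube z ≠ κ := by
          by_cases h6 : cube a1 = κ
          · exact ⟨b1, hb1, h4, fun h7 => h5 (h6.trans h7.symm)⟩
          · exact ⟨a1, ha1, h3, h6⟩
        have haY : a ∈ Y := mem_filter.2 ⟨ha, hak⟩
        obtain ⟨huX, huk⟩ := mem_filter.1 hu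
        obtain ⟨hvX, hvk⟩ := mem_filter.1 hv
        rw [mem_insert, mem_singleton]
        rcases le_total (k z) (k u) with h6 | h6
        · have := hβm _ _ h6
          have := hβm _ _ (hmin a haY)
          left; omega
        rcases le_total (k v) (k z) with h7 | h7
        · have := hβm _ _ h7
          have := hβm _ _ (hmax a haY)
          right; omega
        · exact absurd ((hcv' u huX z hz v hvX h6 h7 (huk.trans hvk.symm)).trans huk) hzk
      set Kc := Fintype.piFinset fun i => ({(ξ i + o) / M - 1, (ξ i + o) / M} : Finset ℤ) with hKc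
      have h2 : Kc.card ≤ 2 ^ d := by
        rw [hKc, Fintype.card_piFinset]
        exact (prod_le_pow_card _ _ 2 fun i _ => card_le_two).trans (by simp)
      refine le_trans (card_le_card (t := Kc.biUnion fun κ =>
        Lg.filter fun s => ∃ a ∈ X, β a = s ∧ cube a = κ) fun s hs => ?_) ?_
      · obtain ⟨hs1, a, ha, has, hb⟩ := mem_filter.1 hs
        refine mem_biUnion.2 ⟨cube a, ?_, mem_filter.2 ⟨hs1, a, ha, has, rfl⟩⟩
        rw [hKc, Fintype.mem_piFinset]
        intro i
        have h3 := hb i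
        have h4 : (p a i + o) / M ≤ (ξ i + o) / M := Int.ediv_le_ediv hM0 (by omega)
        have h5 : (ξ i + o + -1 * M) / M ≤ (p a i + o) / M := Int.ediv_le_ediv hM0 (by omega)
        rw [Int.add_mul_ediv_right _ _ hM0.ne'] at h5
        rw [mem_insert, mem_singleton]
        show (p a i + o) / M = _ ∨ (p a i + o) / M = _
        omega
      · refine (card_biUnion_le_card_mul _ _ 2 fun κ _ => h1 κ).trans ?_
        rw [pow_succ]
        omega

end E3CX
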