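import Pool.Agent.Lib.MP_4d4569_co.CX.Pair
import Pool.Agent.Lib.MP_4d4569_co.R8

/-! One complex chain: octants at the coordinatewise median, and the sixth moment. -/

namespace E3CX

open Finset MeasureTheory

/-- first coordinates of the eight rays -/
def vx : Fin 8 → ℤ := ![1, 1, 0, -1, -1, -1, 0, 1]

/-- second coordinates of the eight rays -/
def vy : Fin 8 → ℤ := ![0, 1, 1, 1, 0, -1, -1, -1]

/-- `z` lies in the half-open octant number `k` -/
def Oc (k : Fin 8) (z : ℂ) : Prop := ∃ s s' : ℝ, 0 < s ∧ 0 ≤ s' ∧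
  z.re = s * vx k + s' * vx (k + 1) ∧ z.im = s * vy k + s' * vy (k + 1)

lemma oc_ex (z : ℂ) (hz : z ≠ 0) : ∃ k, Oc k z := by
  obtain ⟨x, y⟩ := z
  have h0 : ¬ (x = 0 ∧ y = 0) := fun h => hz (by simp [h.1, h.2, Complex.ext_iff])
  by_cases h1 : 0 ≤ y ∧ y < x
  · exact ⟨0, x - y, y, by linarith [h1.2], h1.1, by simp [vx], by simp [vy]⟩
  by_cases h2 : 0 < x ∧ x ≤ y
  · exact ⟨1, x, y - x, h2.1, by linarith [h2.2], by simp [vx], by simp [vy]⟩
  by_cases h3 : x ≤ 0 ∧ -x < y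
  · exact ⟨2, x + y, -x, by linarith [h3.2], by linarith [h3.1], by simp [vx], by simp [vy]⟩
  by_cases h4 : 0 < y ∧ y ≤ -x
  · exact ⟨3, y, -x - y, h4.1, by linarith [h4.2], by simp [vx], by simp [vy]⟩
  by_cases h5 : y ≤ 0 ∧ x < y
  · exact ⟨4, y - x, -y, by linarith [h5.2], by linarith [h5.1], by simp [vx], by simp [vy]⟩
  by_cases h6 : x < 0 ∧ y ≤ x
  · exact ⟨5, -x, x - y, by linarith [h6.1], by linarith [h6.2], by simp [vx], by simp [vy]⟩
  by_cases h7 : 0 ≤ x ∧ x < -y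
  · exact ⟨6, -y - x, x, by linarith [h7.2], h7.1, by simp [vx], by simp [vy]⟩
  have h8 : y < 0 ∧ -x ≤ y := by grind
  exact ⟨7, -y, x + y, by linarith [h8.1], by linarith [h8.2], by simp [vx], by simp [vy]⟩

lemma oc_norm {k : Fin 8} {z : ℂ} (h : Oc k z) (u v : ℤ) (h1 : 1 ≤ u * vx k + v * vy k)
    (h2 : 1 ≤ u * vx (k + 1) + v * vy (k + 1)) :
    7 * ‖z‖ ≤ 10 * ((⟨u, -v⟩ : ℂ) * z).re := by
  obtain ⟨s, s', hs, hs', e1, e2⟩ := h
  have hb : ∀ j, -1 ≤ vx j ∧ vx j ≤ 1 ∧ -1 ≤ vy j ∧ vy j ≤ 1 := by decide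
  have hb' : ∀ j, (-1 : ℝ) ≤ vx j ∧ (vx j : ℝ) ≤ 1 ∧ (-1 : ℝ) ≤ vy j ∧ (vy j : ℝ) ≤ 1 :=
    fun j => by exact_mod_cast hb j
  obtain ⟨a1, a2, a3, a4⟩ := hb' k
  obtain ⟨b1, b2, b3, b4⟩ := hb' (k + 1)
  have h1' : (1 : ℝ) ≤ u * vx k + v * vy k := by exact_mod_cast h1
  have h2' : (1 : ℝ) ≤ u * vx (k + 1) + v * vy (k + 1) := by exact_mod_cast h2
  have hx : z.re ^ 2 ≤ (s + s') ^ 2 := by
    refine sq_le_sq' ?_ ?_ <;> rw [e1] <;> nlinarith
  have hy : z.im ^ 2 ≤ (s + s') ^ 2 := by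
    refine sq_le_sq' ?_ ?_ <;> rw [e2] <;> nlinarith
  have h3 : 7 * ‖z‖ ≤ 10 * (s + s') := by
    refine (pow_le_pow_iff_left₀ (by positivity) (by positivity) two_ne_zero).1 ?_
    rw [mul_pow, Complex.sq_norm, Complex.normSq_apply]
    nlinarith [sq_nonneg (s + s')]
  have h4 : s + s' ≤ ((⟨u, -v⟩ : ℂ) * z).re := by
    simp only [Complex.mul_re, e1, e2]
    linarith [mul_le_mul_of_nonneg_left h1' hs.le, mul_le_mul_of_nonneg_left h2' hs']
  linarith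

lemma oc_sep {k l : Fin 8} (h : ¬ (l = k ∨ l = k + 1 ∨ k = l + 1)) : ∃ ω : ℂ, ‖ω‖ ≤ 3 ∧
    (∀ z, Oc k z → 7 * ‖z‖ ≤ 10 * (ω * z).re) ∧ ∀ z, Oc l z → 7 * ‖z‖ ≤ 10 * (-ω * z).re := by
  have H : ∀ k l : Fin 8, ¬ (l = k ∨ l = k + 1 ∨ k = l + 1) →
      ∃ u ∈ ([-2, -1, 0, 1, 2] : List ℤ), ∃ v ∈ ([-2, -1, 0, 1, 2] : List ℤ),
      |u| + |v| ≤ 3 ∧ 1 ≤ u * vx k + v * vy k ∧ 1 ≤ u * vx (k + 1) + v * vy (k + 1) ∧
      1 ≤ -u * vx l + -v * vy l ∧ 1 ≤ -u * vx (l + 1) + -v * vy (l + 1) := by decide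
  obtain ⟨u, -, v, -, h0, h1, h2, h3, h4⟩ := H k l h
  refine ⟨⟨u, -v⟩, (Complex.norm_le_abs_re_add_abs_im _).trans ?_, fun z hz => oc_norm hz u v h1 h2,
    fun z hz => ?_⟩
  · simp only [abs_neg]
    exact_mod_cast h0
  · convert oc_norm hz (-u) (-v) h3 h4 using 4
    apply Complex.ext <;> simp

lemma oc_half (k : Fin 8) : (∀ z, Oc k z ∨ Oc (k + 1) z → 0 < z.re) ∨
    (∀ z, Oc k z ∨ Oc (k + 1) z → z.re < 0) ∨ (∀ z, Oc k z ∨ Oc (k + 1) z → 0 < z.im) ∨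
    ∀ z, Oc k z ∨ Oc (k + 1) z → z.im < 0 := by
  have H : ∀ k : Fin 8, (1 ≤ vx k ∧ 1 ≤ vx (k + 1) ∧ 0 ≤ vx (k + 1 + 1)) ∨
      (1 ≤ -vx k ∧ 1 ≤ -vx (k + 1) ∧ 0 ≤ -vx (k + 1 + 1)) ∨
      (0 ≤ vy (k + 1 + 1) ∧ 1 ≤ vy k ∧ 1 ≤ vy (k + 1)) ∨
      (0 ≤ -vy (k + 1 + 1) ∧ 1 ≤ -vy k ∧ 1 ≤ -vy (k + 1)) := by decide
  have G : ∀ (s s' : ℝ) (a b : ℤ), 0 < s → 0 ≤ s' → 1 ≤ a → 0 ≤ b → 0 < s * a + s' * b := by
    intro s s' a b h1 h2 h3 h4
    have h5 : (0 : ℝ) < a := by exact_mod_cast h3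
    have h6 : (0 : ℝ) ≤ b := by exact_mod_cast h4
    positivity
  rcases H k with h | h | h | h
  · left
    rintro z (⟨s, s', h1, h2, e, -⟩ | ⟨s, s', h1, h2, e, -⟩)
    · exact e ▸ G s s' _ _ h1 h2 h.1 (by omega)
    · exact e ▸ G s s' _ _ h1 h2 h.2.1 h.2.2
  · right; left
    rintro z (⟨s, s', h1, h2, e, -⟩ | ⟨s, s', h1, h2, e, -⟩)
    · have := G s s' _ (-vx (k + 1)) h1 h2 h.1 (by omega)
      push_cast at this; linarith
    · have := G s s' _ _ h1 h2 h.2.1 h.2.2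
      push_cast at this; linarith
  · right; right; left
    rintro z (⟨s, s', h1, h2, -, e⟩ | ⟨s, s', h1, h2, -, e⟩)
    · exact e ▸ G s s' _ _ h1 h2 h.2.1 (by omega)
    · exact e ▸ G s s' _ _ h1 h2 h.2.2 h.1
  · right; right; right
    rintro z (⟨s, s', h1, h2, -, e⟩ | ⟨s, s', h1, h2, -, e⟩)
    · have := G s s' _ (-vy (k + 1)) h1 h2 h.2.1 (by omega)
      push_cast at this; linarith
    · have := G s s' _ _ h1 h2 h.2.2 h.1
      push_cast at this; linarith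

lemma narrow (P : Fin 8 → Prop) (h : ∀ k l, P k → P l → l = k ∨ l = k + 1 ∨ k = l + 1) :
    ∃ k, ∀ l, P l → l = k ∨ l = k + 1 := by
  by_cases h0 : ∃ k, P k
  · obtain ⟨k, hk⟩ := h0
    by_cases h1 : P (k + 1)
    · have H : ∀ k l : Fin 8, (l = k ∨ l = k + 1 ∨ k = l + 1) →
          (l = k + 1 ∨ l = k + 1 + 1 ∨ k + 1 = l + 1) → l = k ∨ l = k + 1 := by decide
      exact ⟨k, fun l hl => H k l (h k l hk hl) (h _ l h1 hl)⟩
    · have H : ∀ k l : Fin 8, (l = k ∨ l = k + 1 ∨ k = l + 1) → l ≠ k + 1 →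
          l = k - 1 ∨ l = k - 1 + 1 := by decide
      exact ⟨k - 1, fun l hl => H k l (h k l hk hl) fun e => h1 (e ▸ hl)⟩
  · exact ⟨0, fun l hl => absurd ⟨l, hl⟩ h0⟩

theorem one : ∃ C : ℝ, 0 ≤ C ∧ ∀ (α : Type) (p : α → Fin 4 → ℤ) (t c : α → ℂ) (A : Finset α)
    (b : ℝ), 0 < b → Sid A p → Ch A p t → Set.InjOn t A →
    b ^ 6 * U2 A A p c b ≤ C * ms A c ^ 3 := by
  obtain ⟨C1, hC1, H⟩ := pair
  obtain ⟨C, hC⟩ : ∃ C : ℝ, C = 10 ^ 12 + 10 * (64 * 8 * 100 ^ 6) * C1 := ⟨_, rfl⟩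
  have hC0 : 0 ≤ C := by rw [hC]; positivity
  refine ⟨C, hC0, fun α p t c A => ?_⟩
  classical
  have := prob (d := 4)
  induction A using Finset.strongInduction with
  | _ A ih =>
  intro b hb sA cA iA
  obtain ⟨N, hN⟩ : ∃ N, N = ms A c := ⟨_, rfl⟩
  have hN0 : 0 ≤ N := hN ▸ ms_nonneg A c
  rcases A.eq_empty_or_nonempty with rfl | h0
  · simp [U2, f, not_le.2 hb, ms]
  rw [← hN]
  have h5 : 0 ≤ C1 * N ^ 3 := by positivity
  rcases lt_or_ge (b ^ 2) (10 ^ 4 * N) with hbn | hbn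
  · have h1 : (b ^ 2) ^ 3 ≤ (10 ^ 4 * N) ^ 3 := pow_le_pow_left₀ (by positivity) hbn.le 3
    have h2 : b ^ 6 * U2 A A p c b ≤ b ^ 6 :=
      mul_le_of_le_one_right (by positivity) measureReal_le_one
    rw [hC]
    linarith
  obtain ⟨a1, ha1, m1, m2⟩ := median A h0 c fun a => (t a).re
  obtain ⟨a2, ha2, m3, m4⟩ := median A h0 c fun a => (t a).im
  obtain ⟨c0, e1, e2⟩ : ∃ c0 : ℂ, c0.re = (t a1).re ∧ c0.im = (t a2).im :=
    ⟨⟨(t a1).re, (t a2).im⟩, rfl, rfl⟩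
  have hex : ∀ a, ∃ k, t a ≠ c0 → Oc k (t a - c0) := fun a => by
    by_cases h : t a = c0
    · exact ⟨0, fun h' => absurd h h'⟩
    · exact (oc_ex _ (sub_ne_zero.2 h)).imp fun _ h' _ => h'
  choose κ hκ using hex
  set A' := A.filter fun a => t a ≠ c0 with hA'
  have hA'A : A' ⊆ A := filter_subset _ _
  set O : Fin 8 → Finset α := fun k => A'.filter fun a => κ a = k with hO
  set Cl : Fin 8 → Finset α := fun k => A'.filter fun a => κ a = k ∨ κ a = k + 1 with hCl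
  have hOA : ∀ k, O k ⊆ A := fun k => (filter_subset _ _).trans hA'A
  have hClA : ∀ k, Cl k ⊆ A := fun k => (filter_subset _ _).trans hA'A
  have hO1 : ∀ k, ∀ a ∈ O k, t a ≠ c0 ∧ Oc k (t a - c0) := fun k a ha => by
    have h1 := (mem_filter.1 (mem_filter.1 ha).1).2
    exact ⟨h1, (mem_filter.1 ha).2 ▸ hκ a h1⟩
  have hsm : ∀ k, Cl k ⊂ A ∧ 2 * ms (Cl k) c ≤ N := by
    intro k
    have h1 : ∀ a ∈ Cl k, Oc k (t a - c0) ∨ Oc (k + 1) (t a - c0) := fun a ha => by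
      have h1 := hκ a (mem_filter.1 (mem_filter.1 ha).1).2
      rcases (mem_filter.1 ha).2 with e | e
      · exact Or.inl (e ▸ h1)
      · exact Or.inr (e ▸ h1)
    have G : ∀ (P : α → Prop) [DecidablePred P], (∀ a ∈ Cl k, P a) → (∃ a ∈ A, ¬ P a) →
        2 * ms (A.filter P) c ≤ ms A c → Cl k ⊂ A ∧ 2 * ms (Cl k) c ≤ N := by
      intro P _ g1 g2 g3
      have g4 : Cl k ⊆ A.filter P := fun a ha => mem_filter.2 ⟨hClA k ha, g1 a ha⟩
      exact ⟨lt_of_le_of_lt g4 (filter_ssubset.2 g2), by linarith [ms_mono g4 c]⟩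
    rcases oc_half k with h | h | h | h
    · refine G _ (fun a ha => ?_) ⟨a1, ha1, by simp⟩ m2
      have := h _ (h1 a ha)
      rw [Complex.sub_re] at this; linarith
    · refine G _ (fun a ha => ?_) ⟨a1, ha1, by simp⟩ m1
      have := h _ (h1 a ha)
      rw [Complex.sub_re] at this; linarith
    · refine G _ (fun a ha => ?_) ⟨a2, ha2, by simp⟩ m4
      have := h _ (h1 a ha)
      rw [Complex.sub_im] at this; linarith
    · refine G _ (fun a ha => ?_) ⟨a2, ha2, by simp⟩ m3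
      have := h _ (h1 a ha)
      rw [Complex.sub_im] at this; linarith
  have hsum : ∑ k, ms (Cl k) c ≤ 2 * N := by
    have h1 : ∀ a, ((univ.filter fun k : Fin 8 => κ a = k ∨ κ a = k + 1).card : ℝ) ≤ 2 := by
      have H : ∀ j : Fin 8, (univ.filter fun k : Fin 8 => j = k ∨ j = k + 1).card ≤ 2 := by decide
      exact fun a => by exact_mod_cast H (κ a)
    simp only [hCl, ms, sum_filter]
    rw [sum_comm]
    refine le_trans (sum_le_sum fun a _ => ?_) ((mul_sum _ _ _).ge.trans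
      (mul_le_mul_of_nonneg_left (hN ▸ ms_mono hA'A c) zero_le_two))
    rw [← sum_filter, sum_const, nsmul_eq_mul]
    exact mul_le_mul_of_nonneg_right (h1 a) (by positivity)
  have r1 : ∑ k, (91 / 100 * b) ^ 6 * U2 (Cl k) (Cl k) p c (91 / 100 * b) ≤ C * N ^ 3 / 2 := by
    refine le_trans (sum_le_sum (g := fun k => C * N ^ 2 / 4 * ms (Cl k) c) fun k _ => ?_) ?_
    · refine (ih _ (hsm k).1 _ (by positivity) (sA.mono (hClA k)) (cA.mono (hClA k))
        (iA.mono (hClA k))).trans ?_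
      have h1 := ms_nonneg (Cl k) c
      have h2 := pow_le_pow_left₀ (by positivity) (hsm k).2 2
      linarith [mul_le_mul_of_nonneg_left h2 (mul_nonneg hC0 h1)]
    · rw [← mul_sum]
      linarith [mul_le_mul_of_nonneg_left hsum (by positivity : 0 ≤ C * N ^ 2 / 4)]
  set TP := (univ : Finset (Fin 8 × Fin 8)).filter
    (fun q => ¬ (q.2 = q.1 ∨ q.2 = q.1 + 1 ∨ q.1 = q.2 + 1)) with hTP
  have rt : ∀ q ∈ TP, (b / 100) ^ 6 * U2 (O q.1) (O q.2) p c (b / 100) ≤ C1 * (2 * N) ^ 3 := by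
    intro q hq
    obtain ⟨ω, g1, g2, g3⟩ := oc_sep (mem_filter.1 hq).2
    refine (H α p t c ω c0 g1 _ _ _ (by positivity) (sA.mono (hOA _)) (sA.mono (hOA _))
      (cA.mono (hOA _)) (cA.mono (hOA _)) (fun a ha => ⟨(hO1 _ a ha).1, g2 _ (hO1 _ a ha).2⟩)
      fun a ha => ⟨(hO1 _ a ha).1, g3 _ (hO1 _ a ha).2⟩).trans (mul_le_mul_of_nonneg_left
      (pow_le_pow_left₀ (add_nonneg (ms_nonneg _ _) (ms_nonneg _ _)) ?_ 3) hC1)
    linarith [ms_mono (hOA q.1) c, ms_mono (hOA q.2) c]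
  have hcen : ∀ x, ‖f (A.filter fun a => ¬ t a ≠ c0) p c x‖ ≤ b / 100 := by
    intro x
    refine (pow_le_pow_iff_left₀ (norm_nonneg _) (by positivity) two_ne_zero).1 ((cs _ _).trans ?_)
    have h1 : ((A.filter fun a => ¬ t a ≠ c0).card : ℝ) ≤ 1 :=
      Nat.cast_le_one.2 (card_le_one.2 fun u hu v hv => iA (mem_filter.1 hu).1 (mem_filter.1 hv).1
        ((not_not.1 (mem_filter.1 hu).2).trans (not_not.1 (mem_filter.1 hv).2).symm))
    have h2 := ms_mono (filter_subset (fun a => ¬ t a ≠ c0) A) c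
    have h3 := ms_nonneg (A.filter fun a => ¬ t a ≠ c0) c
    simp only [norm_mul, e_norm, mul_one]
    refine (mul_le_of_le_one_left h3 h1).trans ?_
    linarith
  have hu : U2 A A p c b ≤ ∑ k, U2 (Cl k) (Cl k) p c (91 / 100 * b) +
      ∑ q ∈ TP, U2 (O q.1) (O q.2) p c (b / 100) := by
    refine le_trans ?_ (add_le_add (measureReal_biUnion_finset_le _ _)
      (measureReal_biUnion_finset_le _ _))
    refine le_trans (measureReal_mono fun x hx => ?_) (measureReal_union_le _ _)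
    by_cases hq : ∃ q ∈ TP, b / 100 ≤ ‖f (O q.1) p c x‖ ∧ b / 100 ≤ ‖f (O q.2) p c x‖
    · obtain ⟨q, hq, h⟩ := hq
      exact Or.inr (Set.mem_biUnion (mem_coe.2 hq) h)
    obtain ⟨k, hk⟩ := narrow (fun k => b / 100 ≤ ‖f (O k) p c x‖) fun k l g1 g2 => by
      by_contra g3
      exact hq ⟨(k, l), mem_filter.2 ⟨mem_univ _, g3⟩, g1, g2⟩
    refine Or.inl (Set.mem_biUnion (mem_coe.2 (mem_univ k)) (and_self_iff.2 ?_))
    have h1 : f A p c x = f A' p c x + f (A.filter fun a => ¬ t a ≠ c0) p c x :=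
      (sum_filter_add_sum_filter_not _ _ _).symm
    have h2 : f A' p c x = f (Cl k) p c x +
        ∑ l ∈ univ.filter (fun l => ¬ (l = k ∨ l = k + 1)), f (O l) p c x := by
      rw [f, ← sum_filter_add_sum_filter_not A' fun a => κ a = k ∨ κ a = k + 1]
      congr 1
      simp only [hO, f]
      rw [sum_fiberwise_eq_sum_filter]
      simp
    have h3 := (norm_sum_le _ _).trans (sum_le_card_nsmul
      (univ.filter (fun l => ¬ (l = k ∨ l = k + 1))) (fun l => ‖f (O l) p c x‖) (b / 100)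
      fun l hl => (not_le.1 fun g => (mem_filter.1 hl).2 (hk l g)).le)
    have h4 : ((univ.filter (fun l => ¬ (l = k ∨ l = k + 1))).card : ℝ) ≤ 8 := by
      exact_mod_cast (card_filter_le _ _).trans (by simp)
    rw [nsmul_eq_mul] at h3
    have h6 := hx.1
    rw [h1, h2] at h6
    linarith [norm_add_le_of_le (norm_add_le_of_le (le_refl ‖f (Cl k) p c x‖) h3) (hcen x),
      mul_le_mul_of_nonneg_right h4 (by positivity : 0 ≤ b / 100)]
  have h1 := sum_le_card_nsmul _ _ _ rt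
  have h2 : (TP.card : ℝ) ≤ 64 := by exact_mod_cast (card_filter_le _ _).trans (by simp)
  rw [← mul_sum, nsmul_eq_mul] at h1
  rw [← mul_sum] at r1
  have h3 := mul_le_mul_of_nonneg_right h2 (by positivity : 0 ≤ C1 * (2 * N) ^ 3)
  have h4 := mul_le_mul_of_nonneg_left hu (by positivity : 0 ≤ b ^ 6)
  have h6 : 0 ≤ N ^ 3 := by positivity
  rw [hC] at r1 ⊢
  linarith

theorem six : ∃ C : ℝ, 0 ≤ C ∧ ∀ (α : Type) (p : α → Fin 4 → ℤ) (t c : α → ℂ) (A : Finset α)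
    (N : ℕ), 2 ≤ N → A.card ≤ N → Sid A p → Ch A p t → Set.InjOn t A →
    ∫ x, ‖f A p c x‖ ^ 6 ≤ C * Real.log N * ms A c ^ 3 := by
  obtain ⟨C, hC, H⟩ := one
  refine ⟨2 + 256 * C, by positivity, fun α p t c A N hN hA sA cA iA => ?_⟩
  have := prob (d := 4)
  have hN' : (2 : ℝ) ≤ N := by exact_mod_cast hN
  have hl : 1 / 2 ≤ Real.log 2 := by linarith [Real.log_two_gt_d9]
  have hl2 : Real.log 2 ≤ Real.log N := Real.log_le_log (by norm_num) hN'
  obtain ⟨n, hn⟩ : ∃ n, n = ms A c := ⟨_, rfl⟩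
  have hn0 : 0 ≤ n := hn ▸ ms_nonneg A c
  have hf : ∀ x, ‖f A p c x‖ ^ 2 ≤ N * n := fun x => by
    refine (cs _ _).trans ?_
    simp only [norm_mul, e_norm, mul_one]
    exact hn ▸ mul_le_mul_of_nonneg_right (Nat.cast_le.2 hA) (ms_nonneg A c)
  rw [← hn]
  rcases hn0.eq_or_lt with hz | hn1
  · have : ∀ x, ‖f A p c x‖ ^ 6 = 0 := fun x => by
      have h1 := hf x
      rw [← hz, mul_zero] at h1
      rw [show ‖f A p c x‖ ^ 6 = (‖f A p c x‖ ^ 2) ^ 3 by ring, le_antisymm h1 (by positivity)]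
      norm_num
    simp [this, ← hz]
  obtain ⟨r, hr0, hr⟩ : ∃ r : ℝ, 0 < r ∧ r ^ 2 = n :=
    ⟨√n, Real.sqrt_pos.2 hn1, Real.sq_sqrt hn0⟩
  set J := Nat.log 2 N + 1 with hJ
  have hJ1 : (N : ℝ) < 2 ^ J := by exact_mod_cast Nat.lt_pow_succ_log_self (by norm_num) N
  have hJ2 : (J : ℝ) ≤ 4 * Real.log N := by
    have h1 : (2 : ℝ) ^ Nat.log 2 N ≤ N := by exact_mod_cast Nat.pow_log_le_self 2 (by omega)
    have h2 := Real.log_le_log (by positivity) h1
    rw [Real.log_pow] at h2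
    rw [hJ]
    push_cast
    nlinarith [(Nat.cast_nonneg (Nat.log 2 N) : (0 : ℝ) ≤ _)]
  set S : ℕ → Set (Om 4) := fun j => {x | 2 ^ j * r ≤ ‖f A p c x‖ ∧ 2 ^ j * r ≤ ‖f A p c x‖}
    with hS
  have hSm : ∀ j, MeasurableSet (S j) := fun j => IsClosed.measurableSet
    ((isClosed_le continuous_const (f_cont A p c).norm).inter
      (isClosed_le continuous_const (f_cont A p c).norm))
  have hp : ∀ x, ‖f A p c x‖ ^ 6 ≤
      r ^ 6 + ∑ j ∈ range J, (S j).indicator (fun _ => 64 * (2 ^ j * r) ^ 6) x := by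
    intro x
    have h1 : ∀ J, ‖f A p c x‖ < 2 ^ J * r → ‖f A p c x‖ ^ 6 ≤
        r ^ 6 + ∑ j ∈ range J, (S j).indicator (fun _ => 64 * (2 ^ j * r) ^ 6) x := by
      intro J
      induction J with
      | zero => exact fun h => by simpa using pow_le_pow_left₀ (norm_nonneg _) (by simpa using h.le) 6
      | succ J ih =>
        intro h
        have g0 : ∀ j, 0 ≤ (S j).indicator (fun _ => 64 * (2 ^ j * r) ^ 6) x :=
          fun j => Set.indicator_nonneg (fun _ _ => by positivity) x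
        rw [sum_range_succ]
        rcases lt_or_ge ‖f A p c x‖ (2 ^ J * r) with g | g
        · linarith [ih g, g0 J]
        · rw [Set.indicator_of_mem (show x ∈ S J from ⟨g, g⟩)]
          have g1 := pow_le_pow_left₀ (norm_nonneg _) h.le 6
          have g2 : 0 ≤ r ^ 6 := by positivity
          have g3 := sum_nonneg (s := range J) fun j _ => g0 j
          rw [pow_succ 2 J] at g1
          linarith
    refine h1 J (lt_of_pow_lt_pow_left₀ 2 (by positivity) ((hf x).trans_lt ?_))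
    rw [mul_pow, hr]
    refine mul_lt_mul_of_pos_right ?_ hn1
    nlinarith
  have hi : ∀ j ∈ range J, Integrable ((S j).indicator fun _ => 64 * (2 ^ j * r) ^ 6 : Om 4 → ℝ) :=
    fun j _ => (integrable_const _).indicator (hSm j)
  refine (integral_mono (cint (by fun_prop))
    ((integrable_const _).add (integrable_finsetSum _ hi)) hp).trans ?_
  rw [integral_add' (integrable_const _) (integrable_finsetSum _ hi), integral_finsetSum _ hi]
  have h1 := sum_le_card_nsmul (range J)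
    (fun j => ∫ x, (S j).indicator (fun _ => 64 * (2 ^ j * r) ^ 6) x) (64 * (C * n ^ 3))
    fun j _ => by
      have := H α p t c A (2 ^ j * r) (by positivity) sA cA iA
      rw [integral_indicator_const _ (hSm j), smul_eq_mul]
      rw [← hn, U2] at this
      linarith
  rw [card_range, nsmul_eq_mul] at h1
  have h2 : r ^ 6 = n ^ 3 := by rw [← hr]; ring
  have h3 : 0 ≤ n ^ 3 := by positivity
  simp only [integral_const, probReal_univ, one_smul]
  linarith [mul_le_mul_of_nonneg_right hJ2 (by positivity : 0 ≤ 64 * (C * n ^ 3)),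
    mul_le_mul_of_nonneg_right (hl.trans hl2) h3]

lemma W_le {G : Type} [AddCommGroup G] [DecidableEq G] (A : Finset G) (c : G → ℝ)
    (hc : ∀ a, 0 ≤ c a) (p : G → Fin 4 → ℤ)
    (hp : ∀ a : Fin 6 → G, (∀ i, a i ∈ A) → a 0 + a 1 + a 2 = a 3 + a 4 + a 5 →
      p (a 0) + p (a 1) + p (a 2) = p (a 3) + p (a 4) + p (a 5)) :
    E3R8.W A c ≤ ∫ x, ‖f A p (fun a => (c a : ℂ)) x‖ ^ 6 := by
  set T := Fintype.piFinset fun _ : Fin 6 => A with hT
  set δ : (Fin 6 → G) → Fin 4 → ℤ :=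
    fun a => p (a 0) + p (a 1) + p (a 2) - (p (a 3) + p (a 4) + p (a 5)) with hδ
  have h1 : ∀ x, ((‖f A p (fun a => (c a : ℂ)) x‖ ^ 6 : ℝ) : ℂ) =
      ∑ a ∈ T, ((∏ i, c (a i) : ℝ) : ℂ) * e (δ a) x := by
    intro x
    set u : G → ℂ := fun a => c a * e (p a) x with hu
    set v : G → ℂ := fun a => c a * (starRingEnd ℂ) (e (p a) x) with hv
    have h2 := prod_univ_sum (fun _ : Fin 6 => A) ![u, u, u, v, v, v]
    simp only [Fin.prod_univ_six, Matrix.cons_val_zero, Matrix.cons_val_one, Matrix.cons_val] at h2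
    have h3 : (starRingEnd ℂ) (∑ a ∈ A, u a) = ∑ a ∈ A, v a := by
      simp [hu, hv]
    have h4 : ((‖f A p (fun a => (c a : ℂ)) x‖ ^ 6 : ℝ) : ℂ) =
        ((∑ a ∈ A, u a) * ∑ a ∈ A, v a) ^ 3 := by
      rw [← h3, Complex.mul_conj', f]
      push_cast
      ring
    rw [h4]
    refine Eq.trans (by ring) (h2.trans (sum_congr rfl fun a _ => ?_))
    simp only [hu, hv, hδ, e_sub, e_add, map_mul, Fin.prod_univ_six]
    push_cast
    ring
  have h2 : ((∫ x, ‖f A p (fun a => (c a : ℂ)) x‖ ^ 6 : ℝ) : ℂ) =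
      ((∑ a ∈ T, if δ a = 0 then ∏ i, c (a i) else 0 : ℝ) : ℂ) := by
    rw [← integral_complex_ofReal]
    simp_rw [h1]
    rw [integral_finsetSum _ fun i _ => cint (by fun_prop), Complex.ofReal_sum]
    refine sum_congr rfl fun a _ => ?_
    rw [integral_const_mul, int_e]
    split_ifs <;> simp
  rw [Complex.ofReal_injective h2, E3R8.W, sum_filter]
  refine sum_le_sum fun a ha => ?_
  have h3 : 0 ≤ ∏ i, c (a i) := prod_nonneg fun i _ => hc _
  split_ifs with g1 g2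
  · exact le_rfl
  · exact absurd (sub_eq_zero.2 (hp a (Fintype.mem_piFinset.1 ha) g1)) g2
  · exact h3
  · exact le_rfl

/-- finitely many chains -/
theorem many : ∃ C : ℝ, 0 ≤ C ∧ ∀ (G β : Type) [AddCommGroup G] [DecidableEq G] [DecidableEq β]
    (A : Finset G) (c : G → ℝ) (p : G → Fin 4 → ℤ) (t : G → ℂ) (κ : G → β) (K : ℕ),
    (∀ a, 0 ≤ c a) → 2 ≤ A.card → (A.image κ).card ≤ K →
    (∀ a : Fin 6 → G, (∀ i, a i ∈ A) → a 0 + a 1 + a 2 = a 3 + a 4 + a 5 →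
      p (a 0) + p (a 1) + p (a 2) = p (a 3) + p (a 4) + p (a 5)) →
    (∀ k, Sid (A.filter fun a => κ a = k) p ∧ Ch (A.filter fun a => κ a = k) p t ∧
      Set.InjOn t (A.filter fun a => κ a = k)) →
    E3R8.W A c ≤ C * K ^ 5 * Real.log A.card * (∑ a ∈ A, c a ^ 2) ^ 3 := by
  obtain ⟨C, hC, H⟩ := six
  refine ⟨C, hC, fun G β _ _ _ A c p t κ K hc h2 hK hp hk => (W_le A c hc p hp).trans ?_⟩
  set c' : G → ℂ := fun a => (c a : ℂ) with hc'
  set B := A.image κ with hB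
  have hmap : ∀ a ∈ A, κ a ∈ B := fun a ha => mem_image_of_mem _ ha
  have hl : 0 ≤ Real.log A.card := Real.log_natCast_nonneg _
  have h1 : ∀ x, ‖f A p c' x‖ ^ 6 ≤
      K ^ 5 * ∑ k ∈ B, ‖f (A.filter fun a => κ a = k) p c' x‖ ^ 6 := by
    intro x
    have e1 : f A p c' x = ∑ k ∈ B, f (A.filter fun a => κ a = k) p c' x :=
      (sum_fiberwise_of_maps_to hmap _).symm
    rw [e1]
    refine (pow_le_pow_left₀ (norm_nonneg _) (norm_sum_le _ _) 6).trans
      ((pow_sum_le_card_mul_sum_pow (fun _ _ => norm_nonneg _) 5).trans ?_)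
    exact mul_le_mul_of_nonneg_right (pow_le_pow_left₀ (by positivity) (Nat.cast_le.2 hK) 5)
      (sum_nonneg fun _ _ => by positivity)
  refine (integral_mono (cint (by fun_prop)) (cint (by fun_prop)) h1).trans ?_
  rw [integral_const_mul, integral_finsetSum _ fun k _ => cint (by fun_prop)]
  have h3 : ∑ a ∈ A, c a ^ 2 = ∑ k ∈ B, ms (A.filter fun a => κ a = k) c' := by
    simp only [ms, hc', Complex.norm_real, Real.norm_eq_abs, sq_abs]
    exact (sum_fiberwise_of_maps_to hmap _).symm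
  have h4 : ∑ k ∈ B, ms (A.filter fun a => κ a = k) c' ^ 3 ≤ (∑ a ∈ A, c a ^ 2) ^ 3 := by
    rw [h3, pow_succ' _ 2, sum_mul]
    refine sum_le_sum fun k hk => ?_
    rw [pow_succ' _ 2]
    exact mul_le_mul_of_nonneg_left (pow_le_pow_left₀ (ms_nonneg _ _)
      (single_le_sum (f := fun k => ms (A.filter fun a => κ a = k) c')
        (fun _ _ => ms_nonneg _ _) hk) 2) (ms_nonneg _ _)
  have h5 := sum_le_sum (s := B) fun k _ => H G p t c' _ A.card h2 (card_filter_le _ _)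
    (hk k).1 (hk k).2.1 (hk k).2.2
  rw [← mul_sum] at h5
  have h6 := h5.trans (mul_le_mul_of_nonneg_left h4 (by positivity))
  linarith [mul_le_mul_of_nonneg_left h6 (by positivity : (0 : ℝ) ≤ K ^ 5)]

end E3CX
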