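import Pool.Agent.Lib.MP_4d4569_co.CX.Core

/-! Complex chains in `ℤ[i]^2`: transversal pairs and pairs in opposite cones. -/

namespace E3CX

open Finset MeasureTheory

/-- first complex coordinate -/
def cX (v : Fin 4 → ℤ) : ℂ := ⟨v 0, v 1⟩

/-- second complex coordinate -/
def cY (v : Fin 4 → ℤ) : ℂ := ⟨v 2, v 3⟩

lemma cX_add (u v : Fin 4 → ℤ) : cX (u + v) = cX u + cX v := by
  apply Complex.ext <;> simp [cX]

lemma cY_add (u v : Fin 4 → ℤ) : cY (u + v) = cY u + cY v := by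
  apply Complex.ext <;> simp [cY]

/-- the norm adapted to a disc of slopes -/
noncomputable def nn (D : ℝ) (c0 : ℂ) (v : Fin 4 → ℤ) : ℝ := D * ‖cX v‖ + ‖cY v - c0 * cX v‖

/-- integer shear and dilation -/
def Mv (N Q g1 g2 : ℤ) (v : Fin 4 → ℤ) : Fin 4 → ℤ :=
  ![N * v 0, N * v 1, Q * v 2 - (g1 * v 0 - g2 * v 1), Q * v 3 - (g1 * v 1 + g2 * v 0)]

/-- the dual map on the torus -/
def Mt (N Q g1 g2 : ℤ) : Om 4 →+ Om 4 :=
  AddMonoidHom.mk' (fun x => ![N • x 0 - g1 • x 2 - g2 • x 3, N • x 1 + g2 • x 2 - g1 • x 3,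
    Q • x 2, Q • x 3]) fun x y => by
      funext i
      fin_cases i <;> simp <;> abel

lemma Mv_sub (N Q g1 g2 : ℤ) (u v : Fin 4 → ℤ) :
    Mv N Q g1 g2 u - Mv N Q g1 g2 v = Mv N Q g1 g2 (u - v) := by
  funext i
  fin_cases i <;> simp [Mv] <;> ring

lemma Mv_add (N Q g1 g2 : ℤ) (u v : Fin 4 → ℤ) :
    Mv N Q g1 g2 u + Mv N Q g1 g2 v = Mv N Q g1 g2 (u + v) := by
  funext i
  fin_cases i <;> simp [Mv] <;> ring

lemma Mv_inj {N Q : ℤ} (hN : N ≠ 0) (hQ : Q ≠ 0) (g1 g2 : ℤ) {u v : Fin 4 → ℤ}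
    (h : Mv N Q g1 g2 u = Mv N Q g1 g2 v) : u = v := by
  have h0 := congrFun h 0
  have h1 := congrFun h 1
  have h2 := congrFun h 2
  have h3 := congrFun h 3
  simp [Mv, hN] at h0 h1 h2 h3
  simp [h0, h1, hQ] at h2 h3
  funext i
  fin_cases i <;> assumption

lemma e_Mv (N Q g1 g2 : ℤ) (v : Fin 4 → ℤ) (x : Om 4) :
    e (Mv N Q g1 g2 v) x = e v (Mt N Q g1 g2 x) := by
  unfold e
  congr 1
  simp [Fin.sum_univ_four, Mv, Mt]
  module

lemma Mt_mp {N Q : ℤ} (hN : N ≠ 0) (hQ : Q ≠ 0) (g1 g2 : ℤ) :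
    MeasurePreserving (Mt N Q g1 g2) volume volume := by
  refine AddMonoidHom.measurePreserving ?_ (fun y => ?_) rfl
  · refine continuous_pi fun i => ?_
    fin_cases i <;> simp [Mt] <;> fun_prop
  · have dv : ∀ n : ℤ, n ≠ 0 → ∀ t : UnitAddCircle, ∃ s : UnitAddCircle, n • s = t :=
      fun n hn t => ⟨DivisibleBy.div t n, DivisibleBy.div_cancel t hn⟩
    obtain ⟨x2, h2⟩ := dv Q hQ (y 2)
    obtain ⟨x3, h3⟩ := dv Q hQ (y 3)
    obtain ⟨x0, h0⟩ := dv N hN (y 0 + g1 • x2 + g2 • x3)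
    obtain ⟨x1, h1⟩ := dv N hN (y 1 - g2 • x2 + g1 • x3)
    refine ⟨![x0, x1, x2, x3], ?_⟩
    funext i
    fin_cases i <;> simp [Mt, h0, h1, h2, h3] <;> abel

lemma U2_Mv {α : Type} {N Q : ℤ} (hN : N ≠ 0) (hQ : Q ≠ 0) (g1 g2 : ℤ) (I J : Finset α)
    (p : α → Fin 4 → ℤ) (c : α → ℂ) (b : ℝ) :
    U2 I J (fun a => Mv N Q g1 g2 (p a)) c b = U2 I J p c b := by
  have h := (Mt_mp hN hQ g1 g2).measure_preimage
    (s := {x | b ≤ ‖f I p c x‖ ∧ b ≤ ‖f J p c x‖})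
    (IsClosed.measurableSet ((isClosed_le continuous_const (f_cont I p c).norm).inter
      (isClosed_le continuous_const (f_cont J p c).norm))).nullMeasurableSet
  rw [U2, U2, measureReal_def, measureReal_def, ← h]
  simp only [f, e_Mv]
  rfl

lemma U2_comm {d : ℕ} {α : Type} (I J : Finset α) (p : α → Fin d → ℤ) (c : α → ℂ) (b : ℝ) :
    U2 I J p c b = U2 J I p c b := by
  simp only [U2, and_comm]

theorem transv : ∃ C : ℝ, 0 ≤ C ∧ ∀ (α : Type) (I J : Finset α)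
    (p : α → Fin 4 → ℤ) (c : α → ℂ) (b D : ℝ) (c0 : ℂ), 0 < b → 0 < D → Sid I p → Sid J p →
    (∀ a ∈ I, ∀ a' ∈ I, ∀ z ∈ J, ∀ z' ∈ J,
      nn D c0 (p a - p a') ≤ 20 * nn D c0 (p a - p a' + (p z - p z'))) →
    b ^ 6 * U2 I J p c b ≤ C * (ms I c + ms J c) ^ 3 := by
  obtain ⟨C, hC, H⟩ := core 4 240 (by norm_num)
  refine ⟨C, hC, fun α I J p c b D c0 hb hD hI hJ ht => ?_⟩
  obtain ⟨Q, hQ⟩ : ∃ Q : ℕ, 1 ≤ Q * D := by
    obtain ⟨Q, hQ⟩ := exists_nat_ge (1 / D)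
    exact ⟨Q, (div_le_iff₀ hD).1 hQ⟩
  have hQ0 : (0 : ℝ) < Q := (mul_pos_iff_of_pos_right hD).1 (by linarith)
  obtain ⟨N, hN1, hN2⟩ : ∃ N : ℕ, Q * D ≤ N ∧ (N : ℝ) ≤ 2 * (Q * D) :=
    ⟨⌈Q * D⌉₊, Nat.le_ceil _, by linarith [Nat.ceil_lt_add_one (by positivity : 0 ≤ Q * D)]⟩
  have hN0 : (0 : ℝ) < N := by linarith
  have hN' : (N : ℤ) ≠ 0 := by exact_mod_cast hN0.ne'
  have hQ' : (Q : ℤ) ≠ 0 := by exact_mod_cast hQ0.ne'
  obtain ⟨g1, g2, hg⟩ : ∃ g1 g2 : ℤ, ‖(Q : ℂ) * c0 - ⟨g1, g2⟩‖ ≤ 1 := by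
    refine ⟨round (Q * c0.re), round (Q * c0.im), (Complex.norm_le_abs_re_add_abs_im _).trans ?_⟩
    have h1 := abs_sub_round (Q * c0.re)
    have h2 := abs_sub_round (Q * c0.im)
    simp only [Complex.sub_re, Complex.sub_im, Complex.mul_re, Complex.mul_im, Complex.natCast_re,
      Complex.natCast_im, zero_mul, sub_zero, add_zero]
    linarith
  have hX : ∀ v, ‖cX (Mv N Q g1 g2 v)‖ = N * ‖cX v‖ := fun v => by
    have : cX (Mv N Q g1 g2 v) = N * cX v := by apply Complex.ext <;> simp [cX, Mv]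
    rw [this, norm_mul, Complex.norm_natCast]
  have hY : ∀ v, |‖cY (Mv N Q g1 g2 v)‖ - Q * ‖cY v - c0 * cX v‖| ≤ Q * D * ‖cX v‖ := fun v => by
    have h1 : cY (Mv N Q g1 g2 v) - Q * (cY v - c0 * cX v) = (Q * c0 - ⟨g1, g2⟩) * cX v := by
      apply Complex.ext <;> simp [cX, cY, Mv] <;> ring
    have h2 := abs_norm_sub_norm_le (cY (Mv N Q g1 g2 v)) (Q * (cY v - c0 * cX v))
    rw [h1, norm_mul, norm_mul, Complex.norm_natCast] at h2
    exact h2.trans (mul_le_mul_of_nonneg_right (hg.trans hQ) (norm_nonneg _))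
  have hS : ∀ X, Sid X p → Sid X fun a => Mv N Q g1 g2 (p a) := by
    intro X h a ha b hb a' ha' b' hb' hab he
    simp only [Mv_sub] at he
    exact h a ha b hb a' ha' b' hb' hab (Mv_inj hN' hQ' _ _ he)
  rw [← U2_Mv hN' hQ' g1 g2]
  refine H α I J _ c b hb (hS I hI) (hS J hJ) fun a ha a' ha' z hz z' hz' s hs i => ?_
  have h1 := mul_le_mul_of_nonneg_left (ht a ha a' ha' z hz z' hz') hQ0.le
  simp only [← Pi.sub_apply, ← Pi.add_apply, Mv_sub, Mv_add] at hs ⊢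
  generalize p a - p a' + (p z - p z') = v at h1 hs
  generalize p a - p a' = u at h1
  have hs' : ∀ j, |(Mv N Q g1 g2 v j : ℝ)| ≤ s := fun j => by exact_mod_cast hs j
  have h2 : ‖cX (Mv N Q g1 g2 v)‖ ≤ 2 * s := (Complex.norm_le_abs_re_add_abs_im _).trans (by
    have := hs' 0
    have := hs' 1
    simp only [cX]
    linarith)
  have h3 : ‖cY (Mv N Q g1 g2 v)‖ ≤ 2 * s := (Complex.norm_le_abs_re_add_abs_im _).trans (by
    have := hs' 2
    have := hs' 3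
    simp only [cY]
    linarith)
  have h4 := abs_le.1 (hY v)
  have h5 := abs_le.1 (hY u)
  have h6 := mul_le_mul_of_nonneg_right hN1 (norm_nonneg (cX v))
  have h7 := mul_le_mul_of_nonneg_right hN2 (norm_nonneg (cX u))
  have h8 : 0 ≤ Q * ‖cY u - c0 * cX u‖ := by positivity
  have h9 : (0 : ℝ) ≤ s := by positivity
  rw [hX] at h2
  unfold nn at h1
  have hx : ‖cX (Mv N Q g1 g2 u)‖ ≤ 240 * s := by rw [hX]; linarith
  have hy : ‖cY (Mv N Q g1 g2 u)‖ ≤ 240 * s := by linarith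
  have : |(Mv N Q g1 g2 u i : ℝ)| ≤ 240 * s := by
    fin_cases i
    · exact (Complex.abs_re_le_norm _).trans hx
    · exact (Complex.abs_im_le_norm _).trans hx
    · exact (Complex.abs_re_le_norm _).trans hy
    · exact (Complex.abs_im_le_norm _).trans hy
  exact_mod_cast this

/-- the chain condition: each chord slope is a nearly convex combination of the labels -/
def Ch {α : Type} (X : Finset α) (p : α → Fin 4 → ℤ) (t : α → ℂ) : Prop :=
  ∀ a ∈ X, ∀ b ∈ X, a ≠ b → ∃ l : ℂ, cY (p a - p b) = ((1 - l) * t a + l * t b) * cX (p a - p b) ∧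
    10 * |l.im| ≤ l.re ∧ 10 * |l.im| ≤ 1 - l.re

lemma Ch.mono {α : Type} {X Y : Finset α} {p : α → Fin 4 → ℤ} {t : α → ℂ} (h : Ch Y p t)
    (hX : X ⊆ Y) : Ch X p t := fun a ha b hb => h a (hX ha) b (hX hb)

lemma cone0 (ω l z : ℂ) (hω : ‖ω‖ ≤ 3) (hl : 10 * |l.im| ≤ l.re) (hz : 7 * ‖z‖ ≤ 10 * (ω * z).re) :
    4 * (l.re * ‖z‖) ≤ 10 * (ω * (l * z)).re ∧ 10 * ‖l * z‖ ≤ 11 * (l.re * ‖z‖) := by
  have h0 : 0 ≤ l.re := le_trans (by positivity) hl
  constructor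
  · have h1 : (ω * (l * z)).re = l.re * (ω * z).re - l.im * (ω * z).im := by
      rw [mul_left_comm, Complex.mul_re]
    have h2 : |(ω * z).im| ≤ 3 * ‖z‖ := (Complex.abs_im_le_norm _).trans (by
      rw [norm_mul]; exact mul_le_mul_of_nonneg_right hω (norm_nonneg _))
    have h3 := le_abs_self (l.im * (ω * z).im)
    rw [abs_mul] at h3
    have h4 := mul_le_mul hl h2 (abs_nonneg _) h0
    have h5 := mul_le_mul_of_nonneg_left hz h0
    rw [h1]
    linarith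
  · have h1 := Complex.norm_le_abs_re_add_abs_im l
    rw [abs_of_nonneg h0] at h1
    rw [norm_mul]
    nlinarith [norm_nonneg z]

lemma cone1 (ω l z z' : ℂ) (hω : ‖ω‖ ≤ 3) (hl : 10 * |l.im| ≤ l.re) (hl' : 10 * |l.im| ≤ 1 - l.re)
    (hz : 7 * ‖z‖ ≤ 10 * (ω * z).re) (hz' : 7 * ‖z'‖ ≤ 10 * (ω * z').re) :
    ∃ s : ℝ, 0 ≤ s ∧ 4 * s ≤ 10 * (ω * ((1 - l) * z + l * z')).re ∧
      10 * ‖(1 - l) * z + l * z'‖ ≤ 11 * s ∧ (∀ D, ‖z‖ ≤ D → ‖z'‖ ≤ D → s ≤ D) ∧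
      ∀ D, D ≤ ‖z‖ → D ≤ ‖z'‖ → D ≤ s := by
  have h1 := cone0 ω (1 - l) z hω (by simpa using hl') hz
  have h2 := cone0 ω l z' hω hl hz'
  have h3 : 0 ≤ l.re := le_trans (by positivity) hl
  have h4 : 0 ≤ 1 - l.re := le_trans (by positivity) hl'
  simp only [Complex.sub_re, Complex.one_re] at h1
  refine ⟨(1 - l.re) * ‖z‖ + l.re * ‖z'‖, by positivity, ?_, ?_, fun D a b => ?_, fun D a b => ?_⟩
  · rw [mul_add ω, Complex.add_re]; linarith [h1.1, h2.1]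
  · linarith [h1.2, h2.2, norm_add_le ((1 - l) * z) (l * z')]
  · nlinarith
  · nlinarith

lemma nn_le {α : Type} {I J : Finset α} {p : α → Fin 4 → ℤ} {t : α → ℂ} {ω c0 : ℂ} {D : ℝ}
    (hD : 0 < D) (hω : ‖ω‖ ≤ 3) (hI : Ch I p t) (hJ : Ch J p t)
    (h1 : ∀ a ∈ I, 7 * ‖t a - c0‖ ≤ 10 * (ω * (t a - c0)).re ∧ ‖t a - c0‖ ≤ D)
    (h2 : ∀ a ∈ J, 7 * ‖t a - c0‖ ≤ 10 * (-ω * (t a - c0)).re ∧ D ≤ ‖t a - c0‖) :
    ∀ a ∈ I, ∀ a' ∈ I, ∀ z ∈ J, ∀ z' ∈ J,
      nn D c0 (p a - p a') ≤ 20 * nn D c0 (p a - p a' + (p z - p z')) := by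
  intro a ha a' ha' z hz z' hz'
  have h0 : ∀ v, 0 ≤ nn D c0 v := fun v => by unfold nn; positivity
  rcases eq_or_ne z z' with rfl | hzz
  · rw [sub_self, add_zero]; linarith [h0 (p a - p a')]
  rcases eq_or_ne a a' with rfl | haa
  · have : nn D c0 (p a - p a) = 0 := by
      have e1 : cX 0 = 0 := by apply Complex.ext <;> simp [cX]
      have e2 : cY 0 = 0 := by apply Complex.ext <;> simp [cY]
      simp [nn, e1, e2]
    rw [this]; linarith [h0 (p a - p a + (p z - p z'))]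
  obtain ⟨l, e1, l1, l2⟩ := hI a ha a' ha' haa
  obtain ⟨m, e2, m1, m2⟩ := hJ z hz z' hz' hzz
  obtain ⟨s1, s10, s11, s12, s13, -⟩ := cone1 ω l _ _ hω l1 l2 (h1 a ha).1 (h1 a' ha').1
  obtain ⟨s2, -, s21, -, -, s24⟩ :=
    cone1 (-ω) m _ _ (by rwa [norm_neg]) m1 m2 (h2 z hz).1 (h2 z' hz').1
  have s14 := s13 D (h1 a ha).2 (h1 a' ha').2
  have s25 := s24 D (h2 z hz).2 (h2 z' hz').2
  unfold nn
  rw [cX_add, cY_add, e1, e2]
  generalize cX (p a - p a') = x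
  generalize cX (p z - p z') = y
  obtain ⟨k1, hk1⟩ : ∃ k, k = (1 - l) * (t a - c0) + l * (t a' - c0) := ⟨_, rfl⟩
  obtain ⟨k2, hk2⟩ : ∃ k, k = (1 - m) * (t z - c0) + m * (t z' - c0) := ⟨_, rfl⟩
  have e3 : ((1 - l) * t a + l * t a') * x - c0 * x = k1 * x := by rw [hk1]; ring
  have e4 : ((1 - l) * t a + l * t a') * x + ((1 - m) * t z + m * t z') * y - c0 * (x + y) =
      k1 * x + k2 * y := by rw [hk1, hk2]; ring
  rw [e3, e4, norm_mul]
  rw [← hk1] at s11 s12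
  rw [← hk2] at s21
  have h3 : 4 * D ≤ 30 * ‖k1 - k2‖ := by
    have h4 := Complex.re_le_norm (ω * (k1 - k2))
    rw [norm_mul, mul_sub, Complex.sub_re] at h4
    rw [neg_mul, Complex.neg_re] at s21
    linarith [mul_le_mul_of_nonneg_right hω (norm_nonneg (k1 - k2))]
  have h4 : ‖k1 - k2‖ * ‖y‖ ≤ ‖k1‖ * ‖x + y‖ + ‖k1 * x + k2 * y‖ := by
    rw [← norm_mul, ← norm_mul, show (k1 - k2) * y = k1 * (x + y) - (k1 * x + k2 * y) by ring]
    exact norm_sub_le _ _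
  have h5 : ‖x‖ ≤ ‖x + y‖ + ‖y‖ := by simpa using norm_sub_le (x + y) y
  have h6 : 10 * ‖k1‖ ≤ 11 * D := by linarith
  linarith [mul_le_mul_of_nonneg_right h3 (norm_nonneg y), mul_le_mul_of_nonneg_left h5 hD.le,
    mul_le_mul_of_nonneg_right h6 (norm_nonneg x), mul_le_mul_of_nonneg_right h6 (norm_nonneg (x + y)),
    norm_nonneg (k1 * x + k2 * y), mul_nonneg hD.le (norm_nonneg (x + y))]

lemma median {α : Type} (S : Finset α) (hS : S.Nonempty) (c : α → ℂ) (r : α → ℝ) :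
    ∃ a ∈ S, 2 * ms (S.filter fun b => r b < r a) c ≤ ms S c ∧
      2 * ms (S.filter fun b => r a < r b) c ≤ ms S c := by
  obtain ⟨a0, ha0, h0⟩ := exists_min_image S r hS
  obtain ⟨a, ha, h1⟩ := exists_max_image
    (S.filter fun a => 2 * ms (S.filter fun b => r b < r a) c ≤ ms S c) r
    ⟨a0, mem_filter.2 ⟨ha0, by
      rw [filter_eq_empty_iff.2 fun b hb => not_lt.2 (h0 b hb)]
      simpa [ms] using ms_nonneg S c⟩⟩
  obtain ⟨haS, h2⟩ := mem_filter.1 ha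
  refine ⟨a, haS, h2, ?_⟩
  rcases (S.filter fun b => r a < r b).eq_empty_or_nonempty with h | h
  · rw [h]; simpa [ms] using ms_nonneg S c
  obtain ⟨a', ha', h3⟩ := exists_min_image _ r h
  obtain ⟨ha'S, h4⟩ := mem_filter.1 ha'
  have h5 : ms S c < 2 * ms (S.filter fun b => r b < r a') c := by
    by_contra hc
    exact absurd (h1 a' (mem_filter.2 ⟨ha'S, not_lt.1 hc⟩)) (not_le.2 h4)
  have h6 : ms (S.filter fun b => r b < r a') c + ms (S.filter fun b => ¬ r b < r a') c = ms S c :=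
    sum_filter_add_sum_filter_not _ _ _
  have h7 : ms (S.filter fun b => r a < r b) c ≤ ms (S.filter fun b => ¬ r b < r a') c :=
    ms_mono (fun b hb => mem_filter.2 ⟨(mem_filter.1 hb).1, not_lt.2 (h3 b hb)⟩) c
  linarith

lemma split3 (A B : Fin 3 → ℝ) (b : ℝ) (hb : 0 < b) (hA : b ≤ ∑ i, A i) (hB : b ≤ ∑ i, B i) :
    (9 / 10 * b ≤ A 0 ∧ 9 / 10 * b ≤ B 0) ∨ (9 / 10 * b ≤ A 2 ∧ 9 / 10 * b ≤ B 2) ∨
      ∃ q ∈ (univ : Finset (Fin 3 × Fin 3)).filter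
        (fun q => (q.1 ≠ 2 ∧ q.2 ≠ 0) ∨ (q.1 ≠ 0 ∧ q.2 ≠ 2)), b / 20 ≤ A q.1 ∧ b / 20 ≤ B q.2 := by
  rw [Fin.sum_univ_three] at hA hB
  by_contra hc
  push Not at hc
  obtain ⟨h0, h2, h⟩ := hc
  have h01 := h (0, 1) (by decide)
  have h02 := h (0, 2) (by decide)
  have h10 := h (1, 0) (by decide)
  have h11 := h (1, 1) (by decide)
  have h12 := h (1, 2) (by decide)
  have h20 := h (2, 0) (by decide)
  have h21 := h (2, 1) (by decide)
  simp only at h01 h02 h10 h11 h12 h20 h21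
  rcases le_or_gt (b / 20) (A 1) with a1 | a1
  · linarith [h10 a1, h11 a1, h12 a1]
  rcases le_or_gt (b / 20) (A 0) with a0 | a0 <;> rcases le_or_gt (b / 20) (A 2) with a2 | a2
  · linarith [h01 a0, h02 a0, h20 a2]
  · linarith [h01 a0, h02 a0, h0 (by linarith)]
  · linarith [h20 a2, h21 a2, h2 (by linarith)]
  · linarith

theorem pair : ∃ C : ℝ, 0 ≤ C ∧ ∀ (α : Type) (p : α → Fin 4 → ℤ) (t c : α → ℂ) (ω c0 : ℂ),
    ‖ω‖ ≤ 3 → ∀ (I J : Finset α) (b : ℝ), 0 < b → Sid I p → Sid J p → Ch I p t → Ch J p t →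
    (∀ a ∈ I, t a ≠ c0 ∧ 7 * ‖t a - c0‖ ≤ 10 * (ω * (t a - c0)).re) →
    (∀ a ∈ J, t a ≠ c0 ∧ 7 * ‖t a - c0‖ ≤ 10 * (-ω * (t a - c0)).re) →
    b ^ 6 * U2 I J p c b ≤ C * (ms I c + ms J c) ^ 3 := by
  obtain ⟨C1, hC1, H⟩ := transv
  obtain ⟨C, hC⟩ : ∃ C : ℝ, C = 18 * 20 ^ 6 * C1 := ⟨_, rfl⟩
  have hC0 : 0 ≤ C := by rw [hC]; positivity
  refine ⟨C, hC0, fun α p t c ω c0 hω I J => ?_⟩
  classical
  have := prob (d := 4)
  induction hn : (I ∪ J).card using Nat.strong_induction_on generalizing I J with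
  | _ n ih =>
  intro b hb sI sJ cI cJ hI hJ
  have hnI := ms_nonneg I c
  have hnJ := ms_nonneg J c
  rcases (I ∪ J).eq_empty_or_nonempty with h0 | h0
  · have : U2 I J p c b = 0 := by
      rw [(union_eq_empty.1 h0).1]
      simp [U2, f, not_le.2 hb]
    rw [this, mul_zero]
    positivity
  have hdis : Disjoint I J := disjoint_left.2 fun a h1 h2 => by
    have h3 := (hJ a h2).2
    rw [neg_mul, Complex.neg_re] at h3
    linarith [(hI a h1).2, norm_pos_iff.2 (sub_ne_zero.2 (hI a h1).1)]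
  obtain ⟨a0, ha0, m1, m2⟩ := median (I ∪ J) h0 c fun a => ‖t a - c0‖
  obtain ⟨D, hD⟩ : ∃ D, D = ‖t a0 - c0‖ := ⟨_, rfl⟩
  have hD0 : 0 < D := hD ▸ norm_pos_iff.2 (sub_ne_zero.2
    ((mem_union.1 ha0).elim (fun h => (hI _ h).1) fun h => (hJ _ h).1))
  obtain ⟨κ, κ0, κ2⟩ : ∃ κ : α → Fin 3, (∀ a, κ a = 0 ↔ ‖t a - c0‖ < D) ∧
      ∀ a, κ a = 2 ↔ D < ‖t a - c0‖ := by
    refine ⟨fun a => if ‖t a - c0‖ < D then 0 else if D < ‖t a - c0‖ then 2 else 1, fun a => ?_,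
      fun a => ?_⟩
    · beta_reduce
      split_ifs with h1 h2 <;> simp [h1]
    · beta_reduce
      split_ifs with h1 h2
      · simp [h1.le]
      · simp [h2]
      · simpa using h2
  simp only [← hD, ← κ0, ← κ2] at m1 m2
  have hms : ∀ i, ms ((I ∪ J).filter fun a => κ a = i) c =
      ms (I.filter fun a => κ a = i) c + ms (J.filter fun a => κ a = i) c :=
    fun P => by rw [filter_union]; exact sum_union (disjoint_filter_filter hdis)
  have hms' : ms (I ∪ J) c = ms I c + ms J c := sum_union hdis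
  obtain ⟨N, hN⟩ : ∃ N, N = ms I c + ms J c := ⟨_, rfl⟩
  rw [hms', ← hN] at m1 m2
  rw [← hN]
  have hN0 : 0 ≤ N := by linarith
  have hrec : ∀ i : Fin 3, κ a0 ≠ i → 2 * ms ((I ∪ J).filter fun a => κ a = i) c ≤ N →
      8 * ((9 / 10 * b) ^ 6 * U2 (I.filter fun a => κ a = i) (J.filter fun a => κ a = i) p c
        (9 / 10 * b)) ≤ C * N ^ 3 := by
    intro i hi hm
    have h1 := ih _ (by
      rw [← hn, ← filter_union]
      exact card_lt_card (filter_ssubset.2 ⟨a0, ha0, hi⟩)) (I.filter fun a => κ a = i)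
      (J.filter fun a => κ a = i) rfl (9 / 10 * b) (by positivity) (sI.mono (filter_subset _ _))
      (sJ.mono (filter_subset _ _)) (cI.mono (filter_subset _ _)) (cJ.mono (filter_subset _ _))
      (fun a ha => hI a (filter_subset _ _ ha)) fun a ha => hJ a (filter_subset _ _ ha)
    rw [← hms] at h1
    have h2 := pow_le_pow_left₀ (mul_nonneg zero_le_two (ms_nonneg _ _)) hm 3
    linarith [mul_le_mul_of_nonneg_left h2 hC0]
  have r0 := hrec 0 (fun h => by simpa [hD] using (κ0 a0).1 h) m1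
  have r2 := hrec 2 (fun h => by simpa [hD] using (κ2 a0).1 h) m2
  set TP := (univ : Finset (Fin 3 × Fin 3)).filter
    (fun q => (q.1 ≠ 2 ∧ q.2 ≠ 0) ∨ (q.1 ≠ 0 ∧ q.2 ≠ 2)) with hTP
  have rt : ∀ q ∈ TP, (b / 20) ^ 6 * U2 (I.filter fun a => κ a = q.1)
      (J.filter fun a => κ a = q.2) p c (b / 20) ≤ C1 * N ^ 3 := by
    intro q hq
    have h1 := ms_mono (filter_subset (fun a => κ a = q.1) I) c
    have h2 := ms_mono (filter_subset (fun a => κ a = q.2) J) c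
    have h3 := ms_nonneg (I.filter fun a => κ a = q.1) c
    have h4 := ms_nonneg (J.filter fun a => κ a = q.2) c
    rcases (mem_filter.1 hq).2 with h | h
    · refine (H α _ _ p c _ D c0 (by positivity) hD0 (sI.mono (filter_subset _ _))
        (sJ.mono (filter_subset _ _)) (nn_le (t := t) hD0 hω (cI.mono (filter_subset _ _))
        (cJ.mono (filter_subset _ _)) (fun a ha => ?_) fun a ha => ?_)).trans
        (mul_le_mul_of_nonneg_left (pow_le_pow_left₀ (by linarith) (by linarith) 3) hC1)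
      · exact ⟨(hI a (mem_filter.1 ha).1).2,
          not_lt.1 fun h5 => h.1 ((mem_filter.1 ha).2 ▸ (κ2 a).2 h5)⟩
      · exact ⟨(hJ a (mem_filter.1 ha).1).2,
          not_lt.1 fun h5 => h.2 ((mem_filter.1 ha).2 ▸ (κ0 a).2 h5)⟩
    · rw [U2_comm]
      refine (H α _ _ p c _ D c0 (by positivity) hD0 (sJ.mono (filter_subset _ _))
        (sI.mono (filter_subset _ _)) (nn_le (t := t) (ω := -ω) hD0 (by rwa [norm_neg])
        (cJ.mono (filter_subset _ _)) (cI.mono (filter_subset _ _)) (fun a ha => ?_)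
        fun a ha => ?_)).trans
        (mul_le_mul_of_nonneg_left (pow_le_pow_left₀ (by linarith) (by linarith) 3) hC1)
      · exact ⟨(hJ a (mem_filter.1 ha).1).2,
          not_lt.1 fun h5 => h.2 ((mem_filter.1 ha).2 ▸ (κ2 a).2 h5)⟩
      · exact ⟨by rw [neg_neg]; exact (hI a (mem_filter.1 ha).1).2,
          not_lt.1 fun h5 => h.1 ((mem_filter.1 ha).2 ▸ (κ0 a).2 h5)⟩
  have hf : ∀ (X : Finset α) x, ‖f X p c x‖ ≤ ∑ i, ‖f (X.filter fun a => κ a = i) p c x‖ :=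
    fun X x => le_trans (le_of_eq (congrArg _ (sum_fiberwise X κ _).symm)) (norm_sum_le _ _)
  have hu : U2 I J p c b ≤
      U2 (I.filter fun a => κ a = 0) (J.filter fun a => κ a = 0) p c (9 / 10 * b) +
      (U2 (I.filter fun a => κ a = 2) (J.filter fun a => κ a = 2) p c (9 / 10 * b) +
      ∑ q ∈ TP, U2 (I.filter fun a => κ a = q.1) (J.filter fun a => κ a = q.2) p c (b / 20)) := by
    refine le_trans ?_ (add_le_add le_rfl ((add_le_add le_rfl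
      (measureReal_biUnion_finset_le _ _)).trans' (measureReal_union_le _ _)))
    refine le_trans (measureReal_mono fun x hx => ?_) (measureReal_union_le _ _)
    rcases split3 _ _ b hb (hx.1.trans (hf I x)) (hx.2.trans (hf J x)) with h | h | ⟨q, hq, h⟩
    · exact Or.inl h
    · exact Or.inr (Or.inl h)
    · exact Or.inr (Or.inr (Set.mem_biUnion (mem_coe.2 hq) h))
  have h1 := sum_le_card_nsmul _ _ _ rt
  have h2 : (TP.card : ℝ) ≤ 9 := by exact_mod_cast (card_filter_le _ _).trans (by simp)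
  rw [← mul_sum, nsmul_eq_mul] at h1
  have h3 := mul_le_mul_of_nonneg_right h2 (by positivity : 0 ≤ C1 * N ^ 3)
  have h4 := mul_le_mul_of_nonneg_left hu (by positivity : 0 ≤ b ^ 6)
  have h5 : 0 ≤ C1 * N ^ 3 := by positivity
  rw [hC] at r0 r2 ⊢
  linarith

end E3CX
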