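import Pool.Agent.Lib.MP_4d4569_co.CX.One

/-! Reductions: complex chains to Gaussian integers, conics to chains, fields of characteristic
zero to the complex numbers. -/

namespace E3CX

open Finset Filter Topology

lemma cX_sub (u v : Fin 4 → ℤ) : cX (u - v) = cX u - cX v := by
  apply Complex.ext <;> simp [cX]

lemma cY_sub (u v : Fin 4 → ℤ) : cY (u - v) = cY u - cY v := by
  apply Complex.ext <;> simp [cY]

theorem cmany : ∃ C : ℝ, 0 ≤ C ∧ ∀ (G β : Type) [AddCommGroup G] [DecidableEq G] [DecidableEq β]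
    (A : Finset G) (c : G → ℝ) (P : G → ℂ × ℂ) (t : G → ℂ) (κ : G → β) (K : ℕ),
    (∀ a, 0 ≤ c a) → 2 ≤ A.card → (A.image κ).card ≤ K →
    (∀ a : Fin 6 → G, (∀ i, a i ∈ A) → a 0 + a 1 + a 2 = a 3 + a 4 + a 5 →
      P (a 0) + P (a 1) + P (a 2) = P (a 3) + P (a 4) + P (a 5)) →
    (∀ k, Sid (A.filter fun a => κ a = k) P) →
    (∀ a ∈ A, ∀ b ∈ A, κ a = κ b → a ≠ b → t a ≠ t b ∧ (P a).1 ≠ (P b).1 ∧
      ∃ l : ℂ, (P a).2 - (P b).2 = ((1 - l) * t a + l * t b) * ((P a).1 - (P b).1) ∧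
        10 * |l.im| < l.re ∧ 10 * |l.im| < 1 - l.re) →
    E3R8.W A c ≤ C * K ^ 5 * Real.log A.card * (∑ a ∈ A, c a ^ 2) ^ 3 := by
  obtain ⟨C, hC, H⟩ := many
  refine ⟨C, hC, fun G β _ _ _ A c P t κ K hc h2 hK hP hS hch => ?_⟩
  classical
  set S : Finset ℝ := A.biUnion fun a => {(P a).1.re, (P a).1.im, (P a).2.re, (P a).2.im} with hSdef
  have hm : ∀ a ∈ A, (P a).1.re ∈ S ∧ (P a).1.im ∈ S ∧ (P a).2.re ∈ S ∧ (P a).2.im ∈ S := by
    intro a ha
    refine ⟨?_, ?_, ?_, ?_⟩ <;> exact mem_biUnion.2 ⟨a, ha, by simp⟩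
  choose φ hφ using fun n : ℕ => E3R8.ratmap S (1 / ((n : ℝ) + 1)) (by positivity)
  have h0 : ∀ x ∈ S, Tendsto (fun n => ((φ n x : ℝ) : ℂ)) atTop (𝓝 (x : ℂ)) := by
    intro x hx
    refine (Complex.continuous_ofReal.tendsto _).comp (tendsto_iff_dist_tendsto_zero.2 ?_)
    exact squeeze_zero (fun _ => dist_nonneg) (fun n => (hφ n x hx).le)
      tendsto_one_div_add_atTop_nhds_zero_nat
  set Φ : ℕ → ℂ → ℂ := fun n z => ((φ n z.re : ℝ) : ℂ) + ((φ n z.im : ℝ) : ℂ) * Complex.I with hΦ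
  have h1 : ∀ z : ℂ, z.re ∈ S → z.im ∈ S → Tendsto (fun n => Φ n z) atTop (𝓝 z) := by
    intro z a b
    have := (h0 _ a).add ((h0 _ b).mul_const Complex.I)
    rwa [Complex.re_add_im] at this
  have hx := fun a ha => h1 _ (hm a ha).1 (hm a ha).2.1
  have hy := fun a ha => h1 _ (hm a ha).2.2.1 (hm a ha).2.2.2
  set Q : ℕ → G → ℂ × ℂ := fun n a => (Φ n (P a).1, Φ n (P a).2) with hQ
  have hq : ∀ a ∈ A, Tendsto (fun n => Q n a) atTop (𝓝 (P a)) :=
    fun a ha => (hx a ha).prodMk_nhds (hy a ha)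
  have E1 : ∀ᶠ n in atTop, ∀ a ∈ A, ∀ b ∈ A, ∀ a' ∈ A, ∀ b' ∈ A,
      Q n a - Q n b - (Q n a' - Q n b') = 0 → P a - P b = P a' - P b' := by
    simp only [eventually_all_finset]
    intro a ha b hb a' ha' b' hb'
    by_cases h : P a - P b = P a' - P b'
    · exact Eventually.of_forall fun _ _ => h
    · exact ((((hq a ha).sub (hq b hb)).sub ((hq a' ha').sub (hq b' hb'))).eventually_ne
        (sub_ne_zero.2 h)).mono fun n hn h' => absurd h' hn
  have E2 : ∀ᶠ n in atTop, ∀ a ∈ A, ∀ b ∈ A, κ a = κ b → a ≠ b →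
      ∃ l : ℂ, (Q n a).2 - (Q n b).2 = ((1 - l) * t a + l * t b) * ((Q n a).1 - (Q n b).1) ∧
        10 * |l.im| ≤ l.re ∧ 10 * |l.im| ≤ 1 - l.re := by
    simp only [eventually_all_finset]
    intro a ha b hb
    by_cases h : κ a = κ b ∧ a ≠ b
    · obtain ⟨g1, g2, l, g3, g4, g5⟩ := hch a ha b hb h.1 h.2
      have g1' := sub_ne_zero.2 g1.symm
      have g2' := sub_ne_zero.2 g2
      have T1 := (hx a ha).sub (hx b hb)
      have T2 := ((((hy a ha).sub (hy b hb)).div T1 g2').sub_const (t a)).div_const (t b - t a)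
      rw [show (((P a).2 - (P b).2) / ((P a).1 - (P b).1) - t a) / (t b - t a) = l by
        rw [g3]; field_simp; ring] at T2
      have T3 := T2.eventually ((isOpen_lt (f := fun l : ℂ => 10 * |l.im|) (g := fun l => l.re)
        (by fun_prop) (by fun_prop)).mem_nhds g4)
      have T4 := T2.eventually ((isOpen_lt (f := fun l : ℂ => 10 * |l.im|) (g := fun l => 1 - l.re)
        (by fun_prop) (by fun_prop)).mem_nhds g5)
      filter_upwards [T1.eventually_ne g2', T3, T4] with n a1 a2 a3 _ _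
      refine ⟨_, ?_, a2.le, a3.le⟩
      simp only [hQ, Pi.div_apply]
      field_simp
      ring
    · exact Eventually.of_forall fun _ g1 g2 => absurd ⟨g1, g2⟩ h
  obtain ⟨n, e1, e2⟩ := (E1.and E2).exists
  obtain ⟨L, z, hL, hz⟩ := E3R8.intmap S (φ n)
  have hz' : ∀ x ∈ S, (z x : ℝ) = L * (φ n x : ℝ) := fun x hx => by exact_mod_cast hz x hx
  set p : G → Fin 4 → ℤ := fun a => ![z (P a).1.re, z (P a).1.im, z (P a).2.re, z (P a).2.im]
    with hp
  have pX : ∀ a ∈ A, cX (p a) = ((L : ℝ) : ℂ) * (Q n a).1 := fun a ha => by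
    apply Complex.ext <;> simp [cX, hp, hQ, hΦ, hz' _ (hm a ha).1, hz' _ (hm a ha).2.1]
  have pY : ∀ a ∈ A, cY (p a) = ((L : ℝ) : ℂ) * (Q n a).2 := fun a ha => by
    apply Complex.ext <;> simp [cY, hp, hQ, hΦ, hz' _ (hm a ha).2.2.1, hz' _ (hm a ha).2.2.2]
  have hL' : ((L : ℝ) : ℂ) ≠ 0 := by exact_mod_cast hL.ne'
  refine H G β A c p t κ K hc h2 hK (fun a ha hr => ?_) fun k => ⟨?_, ?_, ?_⟩
  · have g : ∀ r : ℂ × ℂ →+ ℝ, (∀ a ∈ A, r (P a) ∈ S) → z (r (P (a 0))) + z (r (P (a 1))) +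
        z (r (P (a 2))) = z (r (P (a 3))) + z (r (P (a 4))) + z (r (P (a 5))) := by
      intro r hr'
      have r1 := congrArg (fun x => L * φ n (r x)) (hP a ha hr)
      simp only [map_add, mul_add, ← hz _ (hr' _ (ha _))] at r1
      exact_mod_cast r1
    funext i
    fin_cases i
    · exact g (Complex.reAddGroupHom.comp (AddMonoidHom.fst _ _)) fun a ha => (hm a ha).1
    · exact g (Complex.imAddGroupHom.comp (AddMonoidHom.fst _ _)) fun a ha => (hm a ha).2.1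
    · exact g (Complex.reAddGroupHom.comp (AddMonoidHom.snd _ _)) fun a ha => (hm a ha).2.2.1
    · exact g (Complex.imAddGroupHom.comp (AddMonoidHom.snd _ _)) fun a ha => (hm a ha).2.2.2
  · intro a ha b hb a' ha' b' hb' hab he
    have g := fun a (ha : a ∈ A.filter fun a => κ a = k) => (mem_filter.1 ha).1
    refine hS k a ha b hb a' ha' b' hb' hab (e1 a (g a ha) b (g b hb) a' (g a' ha') b' (g b' hb') ?_)
    have g1 := congrArg cX he
    have g2 := congrArg cY he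
    rw [cX_sub, cX_sub, pX a (g a ha), pX b (g b hb), pX a' (g a' ha'), pX b' (g b' hb'),
      ← mul_sub, ← mul_sub] at g1
    rw [cY_sub, cY_sub, pY a (g a ha), pY b (g b hb), pY a' (g a' ha'), pY b' (g b' hb'),
      ← mul_sub, ← mul_sub] at g2
    exact sub_eq_zero.2 (Prod.ext (mul_left_cancel₀ hL' g1) (mul_left_cancel₀ hL' g2))
  · intro a ha b hb hab
    obtain ⟨a1, a2⟩ := mem_filter.1 ha
    obtain ⟨b1, b2⟩ := mem_filter.1 hb
    obtain ⟨l, g1, g2⟩ := e2 a a1 b b1 (a2.trans b2.symm) hab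
    refine ⟨l, ?_, g2⟩
    rw [cX_sub, cY_sub, pX a a1, pX b b1, pY a a1, pY b b1, ← mul_sub, g1]
    ring
  · intro a ha b hb hab
    obtain ⟨a1, a2⟩ := mem_filter.1 (mem_coe.1 ha)
    obtain ⟨b1, b2⟩ := mem_filter.1 (mem_coe.1 hb)
    by_contra hne
    exact (hch a a1 b b1 (a2.trans b2.symm) hne).1 hab

lemma conic_nf (a b c d e f : ℂ)
    (hD : 4 * a * c * f + b * d * e - a * e ^ 2 - c * d ^ 2 - f * b ^ 2 ≠ 0) :
    ∃ p q r p' q' r' : ℂ, p * q' - q * p' ≠ 0 ∧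
      ((∀ x y, a * x ^ 2 + b * x * y + c * y ^ 2 + d * x + e * y + f = 0 →
        p' * x + q' * y + r' = (p * x + q * y + r) ^ 2) ∨
      ∀ x y, a * x ^ 2 + b * x * y + c * y ^ 2 + d * x + e * y + f = 0 →
        (p * x + q * y + r) * (p' * x + q' * y + r') = 1) := by
  have sq : ∀ w : ℂ, ∃ z, z ^ 2 = w := fun w => IsAlgClosed.exists_pow_nat_eq w two_pos
  by_cases h : b ^ 2 = 4 * a * c
  · obtain ⟨u, rfl⟩ := sq a
    obtain ⟨v, rfl, rfl⟩ : ∃ v, v ^ 2 = c ∧ 2 * u * v = b := by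
      obtain ⟨v, rfl⟩ := sq c
      rcases sq_eq_sq_iff_eq_or_eq_neg.1 (show b ^ 2 = (2 * u * v) ^ 2 by rw [h]; ring) with g | g
      · exact ⟨v, rfl, g.symm⟩
      · exact ⟨-v, by ring, by rw [g]; ring⟩
    refine ⟨u, v, 0, -d, -e, -f, fun g => hD ?_, Or.inl fun x y g => ?_⟩
    · linear_combination (u * e - v * d) * g
    · linear_combination -g
  · obtain ⟨p, q, r, s, rfl, rfl, rfl⟩ : ∃ p q r s, p * r = a ∧ p * s + q * r = b ∧ q * s = c := by
      by_cases h0 : a = 0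
      · exact ⟨0, 1, b, c, by simp [h0], by simp, by simp⟩
      · obtain ⟨w, hw⟩ := sq (b ^ 2 - 4 * a * c)
        refine ⟨a, (b + w) / 2, 1, (b - w) / (2 * a), by simp, by field_simp; ring, ?_⟩
        field_simp
        linear_combination -hw
    have h1 : p * s - q * r ≠ 0 := fun g => h (by linear_combination (p * s - q * r) * g)
    obtain ⟨m, n, rfl, rfl⟩ : ∃ m n, m * p + n * r = d ∧ m * q + n * s = e :=
      ⟨(d * s - e * r) / (p * s - q * r), (p * e - q * d) / (p * s - q * r),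
        by rw [div_mul_eq_mul_div, div_mul_eq_mul_div, ← add_div, div_eq_iff h1]; ring,
        by rw [div_mul_eq_mul_div, div_mul_eq_mul_div, ← add_div, div_eq_iff h1]; ring⟩
    have h2 : m * n - f ≠ 0 := fun g => hD (by linear_combination (p * s - q * r) ^ 2 * g)
    obtain ⟨i, hi⟩ : ∃ i, (m * n - f) * i = 1 := ⟨_, mul_inv_cancel₀ h2⟩
    refine ⟨p, q, n, r * i, s * i, m * i, fun g => h1 ?_, Or.inr fun x y g => ?_⟩
    · linear_combination (m * n - f) * g - (p * s - q * r) * hi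
    · linear_combination i * g + hi

/-- a colouring of directions -/
noncomputable def col (v : ℂ) : ℤ × ℤ := (⌊40 * (v / (‖v‖ : ℂ)).re⌋, ⌊40 * (v / (‖v‖ : ℂ)).im⌋)

lemma col_card {G : Type} (A : Finset G) (v : G → ℂ) :
    (A.image fun z => col (v z)).card ≤ 6561 := by
  obtain ⟨T, hT, hT'⟩ : ∃ T : Finset ℤ, T.card = 81 ∧ ∀ x : ℝ, |x| ≤ 1 → ⌊40 * x⌋ ∈ T := by
    refine ⟨Icc (-40) 40, by rw [Int.card_Icc]; rfl, fun x hx => ?_⟩
    have := abs_le.1 hx
    exact mem_Icc.2 ⟨Int.le_floor.2 (by push_cast; linarith),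
      Int.floor_le_iff.2 (by push_cast; linarith)⟩
  refine (card_le_card (t := T ×ˢ T) fun k hk => ?_).trans (by rw [card_product, hT])
  obtain ⟨z, -, rfl⟩ := mem_image.1 hk
  have h : ‖v z / (‖v z‖ : ℂ)‖ ≤ 1 := by
    rw [norm_div, Complex.norm_real, norm_norm]
    exact div_self_le_one _
  exact mem_product.2 ⟨hT' _ ((Complex.abs_re_le_norm _).trans h),
    hT' _ ((Complex.abs_im_le_norm _).trans h)⟩

lemma col_eq {v w : ℂ} (hv : v ≠ 0) (hw : w ≠ 0) (h : col v = col w) : v + w ≠ 0 ∧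
    10 * |(v / (v + w)).im| < (v / (v + w)).re ∧ 10 * |(v / (v + w)).im| < 1 - (v / (v + w)).re := by
  obtain ⟨g1, g2⟩ := Prod.mk.inj h
  have g3 := abs_lt.1 (Int.abs_sub_lt_one_of_floor_eq_floor g1)
  have g4 := abs_lt.1 (Int.abs_sub_lt_one_of_floor_eq_floor g2)
  have hv0 := norm_pos_iff.2 hv
  have hw0 := norm_pos_iff.2 hw
  obtain ⟨s, hs⟩ : ∃ s, s = v / (‖v‖ : ℂ) := ⟨_, rfl⟩
  obtain ⟨u, hu⟩ : ∃ s, s = w / (‖w‖ : ℂ) := ⟨_, rfl⟩
  rw [← hs, ← hu] at g3 g4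
  have hu1 : ‖u‖ = 1 := by rw [hu, norm_div, Complex.norm_real, norm_norm, div_self hw0.ne']
  have h1 : ‖(s - u) * (starRingEnd ℂ) u‖ ≤ 1 / 20 := by
    rw [norm_mul, Complex.norm_conj, hu1, mul_one]
    refine (Complex.norm_le_abs_re_add_abs_im _).trans ?_
    have a1 : |(s - u).re| ≤ 1 / 40 := by rw [Complex.sub_re, abs_le]; constructor <;> linarith
    have a2 : |(s - u).im| ≤ 1 / 40 := by rw [Complex.sub_im, abs_le]; constructor <;> linarith
    linarith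
  have h2 : v * (starRingEnd ℂ) w = ((‖v‖ * ‖w‖ : ℝ) : ℂ) * (1 + (s - u) * (starRingEnd ℂ) u) := by
    have a1 : (‖v‖ : ℂ) ≠ 0 := by exact_mod_cast hv0.ne'
    have a2 : (‖w‖ : ℂ) ≠ 0 := by exact_mod_cast hw0.ne'
    rw [sub_mul, Complex.mul_conj', hu1, hs, hu, map_div₀, Complex.conj_ofReal]
    push_cast
    field_simp
    ring
  have h3 : 10 * |(v * (starRingEnd ℂ) w).im| < (v * (starRingEnd ℂ) w).re := by
    have a1 := (Complex.abs_im_le_norm _).trans h1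
    have a2 := abs_le.1 ((Complex.abs_re_le_norm _).trans h1)
    rw [h2, Complex.im_ofReal_mul, Complex.re_ofReal_mul, abs_mul, abs_of_pos (mul_pos hv0 hw0),
      Complex.add_im, Complex.add_re, Complex.one_im, Complex.one_re, zero_add, mul_left_comm]
    exact mul_lt_mul_of_pos_left (by linarith) (mul_pos hv0 hw0)
  obtain ⟨x, y⟩ := v
  obtain ⟨x', y'⟩ := w
  simp only [Complex.mul_re, Complex.mul_im, Complex.conj_re, Complex.conj_im] at h3
  have h4 := abs_nonneg (x * -y' + y * x')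
  have hN : 0 < (x + x') * (x + x') + (y + y') * (y + y') := by
    nlinarith [sq_nonneg x, sq_nonneg y, sq_nonneg x', sq_nonneg y']
  refine ⟨fun g => ?_, ?_⟩
  · have a1 := congrArg Complex.re g
    have a2 := congrArg Complex.im g
    simp only [Complex.add_re, Complex.add_im, Complex.zero_re, Complex.zero_im] at a1 a2
    rw [a1, a2] at hN
    simp at hN
  · simp only [Complex.div_re, Complex.div_im, Complex.add_re, Complex.add_im, Complex.normSq_apply]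
    rw [← sub_div, ← add_div, one_sub_div hN.ne', abs_div, abs_of_pos hN, ← mul_div_assoc,
      show y * (x + x') - x * (y + y') = x * -y' + y * x' by ring]
    constructor <;> refine div_lt_div_of_pos_right ?_ hN <;>
      nlinarith [sq_nonneg x, sq_nonneg y, sq_nonneg x', sq_nonneg y']

theorem cconic : ∃ C : ℝ, ∀ (G : Type) [AddCommGroup G] [DecidableEq G] (A : Finset G) (w : G → ℝ)
    (X Y : G → ℂ) (a b c d e f : ℂ),
    4 * a * c * f + b * d * e - a * e ^ 2 - c * d ^ 2 - f * b ^ 2 ≠ 0 → (∀ z, 0 ≤ w z) →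
    2 ≤ A.card → (∀ z ∈ A, ∀ z' ∈ A, X z = X z' → Y z = Y z' → z = z') →
    (∀ z ∈ A, a * X z ^ 2 + b * X z * Y z + c * Y z ^ 2 + d * X z + e * Y z + f = 0) →
    (∀ z : Fin 6 → G, (∀ i, z i ∈ A) → z 0 + z 1 + z 2 = z 3 + z 4 + z 5 →
      X (z 0) + X (z 1) + X (z 2) = X (z 3) + X (z 4) + X (z 5) ∧
      Y (z 0) + Y (z 1) + Y (z 2) = Y (z 3) + Y (z 4) + Y (z 5)) →
    E3R8.W A w ≤ C * Real.log A.card * (∑ z ∈ A, w z ^ 2) ^ 3 := by
  obtain ⟨C, hC, H⟩ := cmany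
  refine ⟨C * (6561 : ℕ) ^ 5, fun G _ _ A w X Y a b c d e f hD hw h2 hi hq hr => ?_⟩
  obtain ⟨p, q, r, p', q', r', h0, hc⟩ := conic_nf a b c d e f hD
  obtain ⟨u, hu⟩ : ∃ u : G → ℂ, ∀ z, u z = p * X z + q * Y z + r := ⟨_, fun _ => rfl⟩
  obtain ⟨v, hv⟩ : ∃ v : G → ℂ, ∀ z, v z = p' * X z + q' * Y z + r' := ⟨_, fun _ => rfl⟩
  have h1 : ∀ z ∈ A, ∀ z' ∈ A, u z = u z' → v z = v z' → z = z' := by
    intro z hz z' hz' g1 g2
    rw [hu, hu] at g1
    rw [hv, hv] at g2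
    exact hi z hz z' hz' (mul_left_cancel₀ h0 (by linear_combination q' * g1 - q * g2))
      (mul_left_cancel₀ h0 (by linear_combination p * g2 - p' * g1))
  have h3 : ∀ z : Fin 6 → G, (∀ i, z i ∈ A) → z 0 + z 1 + z 2 = z 3 + z 4 + z 5 →
      (u (z 0), v (z 0)) + (u (z 1), v (z 1)) + (u (z 2), v (z 2)) =
      (u (z 3), v (z 3)) + (u (z 4), v (z 4)) + (u (z 5), v (z 5)) := by
    intro z hz g
    obtain ⟨g1, g2⟩ := hr z hz g
    simp only [hu, hv, Prod.mk_add_mk, Prod.mk.injEq]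
    exact ⟨by linear_combination p * g1 + q * g2, by linear_combination p' * g1 + q' * g2⟩
  rcases hc with hc | hc
  · have h4 : ∀ z ∈ A, v z = u z ^ 2 := fun z hz => by rw [hu, hv]; exact hc _ _ (hq z hz)
    have h5 : ∀ z ∈ A, ∀ z' ∈ A, u z = u z' → z = z' := fun z hz z' hz' g =>
      h1 z hz z' hz' g (by rw [h4 z hz, h4 z' hz', g])
    refine H G Unit A w (fun z => (u z, v z)) (fun z => 2 * u z) (fun _ => ()) 6561 hw h2
      ((card_le_univ _).trans (by simp)) h3 (fun k => ?_) fun z hz z' hz' _ g => ?_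
    · intro z1 a1 z2 a2 z3 a3 z4 a4 g he
      rw [mem_filter] at a1 a2 a3 a4
      simp only [Prod.mk_sub_mk, Prod.mk.injEq, h4 _ a1.1, h4 _ a2.1, h4 _ a3.1, h4 _ a4.1] at he
      have g1 : u z1 - u z2 ≠ 0 := sub_ne_zero.2 fun g' => g (h5 _ a1.1 _ a2.1 g')
      have g2 : u z1 + u z2 = u z3 + u z4 :=
        mul_left_cancel₀ g1 (by linear_combination he.2 - (u z3 + u z4) * he.1)
      exact ⟨h5 _ a1.1 _ a3.1 (by linear_combination (g2 + he.1) / 2),
        h5 _ a2.1 _ a4.1 (by linear_combination (g2 - he.1) / 2)⟩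
    · refine ⟨fun g' => g (h5 z hz z' hz' (by linear_combination g' / 2)),
        fun g' => g (h5 z hz z' hz' g'), ((1 / 2 : ℝ) : ℂ), ?_, ?_, ?_⟩
      · simp only [h4 z hz, h4 z' hz']
        push_cast
        ring
      · rw [Complex.ofReal_im, Complex.ofReal_re]; norm_num
      · rw [Complex.ofReal_im, Complex.ofReal_re]; norm_num
  · have h4 : ∀ z ∈ A, u z * v z = 1 := fun z hz => by rw [hu, hv]; exact hc _ _ (hq z hz)
    have h6 : ∀ z ∈ A, v z ≠ 0 := fun z hz => right_ne_zero_of_mul_eq_one (h4 z hz)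
    have h5 : ∀ z ∈ A, ∀ z' ∈ A, v z = v z' → z = z' := fun z hz z' hz' g =>
      h1 z hz z' hz' (mul_right_cancel₀ (h6 z hz) (by rw [h4 z hz, g, h4 z' hz'])) g
    refine H G (ℤ × ℤ) A w (fun z => (u z, v z)) (fun z => -v z ^ 2) (fun z => col (v z)) 6561 hw h2
      (col_card A v) h3 (fun k => ?_) fun z hz z' hz' g0 g => ?_
    · intro z1 a1 z2 a2 z3 a3 z4 a4 g he
      rw [mem_filter] at a1 a2 a3 a4
      simp only [Prod.mk_sub_mk, Prod.mk.injEq] at he
      have g1 : v z1 - v z2 ≠ 0 := sub_ne_zero.2 fun g' => g (h5 _ a1.1 _ a2.1 g')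
      have b1 := h4 _ a1.1
      have b2 := h4 _ a2.1
      have b3 := h4 _ a3.1
      have b4 := h4 _ a4.1
      have g2 : v z1 * v z2 = v z3 * v z4 := mul_left_cancel₀ g1 (by
        linear_combination (v z1 * v z2 * v z3 * v z4) * he.1 + (v z1 * v z2) * he.2 -
          (v z2 * v z3 * v z4) * b1 + (v z1 * v z3 * v z4) * b2 + (v z1 * v z2 * v z4) * b3 -
          (v z1 * v z2 * v z3) * b4)
      have g3 := (col_eq (h6 _ a1.1) (h6 _ a4.1) (a1.2.trans a4.2.symm)).1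
      have g4 : v z1 = v z3 := mul_left_cancel₀ g3 (by linear_combination g2 + v z1 * he.2)
      exact ⟨h5 _ a1.1 _ a3.1 g4, h5 _ a2.1 _ a4.1 (by linear_combination g4 - he.2)⟩
    · obtain ⟨g1, g2⟩ := col_eq (h6 z hz) (h6 z' hz') g0
      have g3 : v z - v z' ≠ 0 := sub_ne_zero.2 fun g' => g (h5 _ hz _ hz' g')
      have b1 := h4 z hz
      have b2 := h4 z' hz'
      refine ⟨fun g' => mul_ne_zero g1 g3 (by linear_combination -g'),
        fun g' => g3 (by linear_combination v z' * b1 - v z * b2 - v z * v z' * g'),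
        v z / (v z + v z'), ?_, g2⟩
      rw [show (1 - v z / (v z + v z')) * -v z ^ 2 + v z / (v z + v z') * -v z' ^ 2 =
        -(v z * v z') by field_simp; ring]
      linear_combination v z' * b1 - v z * b2

lemma hom_ex (R : Type) [CommRing R] [Nontrivial R] [Algebra ℚ R] [Algebra.FiniteType ℚ R] :
    Nonempty (R →+* ℂ) := by
  obtain ⟨m, hm⟩ := Ideal.exists_maximal R
  let _ := Ideal.Quotient.field m
  have h2 : Module.Finite ℚ (R ⧸ m) := finite_of_finite_type_of_isJacobsonRing ℚ (R ⧸ m)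
  let ψ : (R ⧸ m) →ₐ[ℚ] ℂ := IsAlgClosed.lift
  exact ⟨ψ.toRingHom.comp (Ideal.Quotient.mk m)⟩

lemma place (K : Type) [Field K] [CharZero K] (S : Finset K) :
    ∃ (R : Subalgebra ℚ K) (ψ : R →+* ℂ), (∀ x ∈ S, x ∈ R) ∧
      ∀ x : R, (x : K) ∈ S → x ≠ 0 → ψ x ≠ 0 := by
  classical
  set T := S ∪ S.image (·⁻¹) with hT
  set R := Algebra.adjoin ℚ (T : Set K) with hR
  have h1 : Algebra.FiniteType ℚ R := (Subalgebra.fg_iff_finiteType R).1 ⟨T, rfl⟩
  obtain ⟨ψ⟩ := hom_ex R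
  refine ⟨R, ψ,
    fun x hx => Algebra.subset_adjoin (mem_coe.2 (mem_union_left _ hx)), fun x hx h0 => ?_⟩
  have h3 : (x : K)⁻¹ ∈ R :=
    Algebra.subset_adjoin (mem_coe.2 (mem_union_right _ (mem_image_of_mem _ hx)))
  have h4 : x * ⟨_, h3⟩ = 1 := Subtype.ext (mul_inv_cancel₀ fun g => h0 (Subtype.ext g))
  exact left_ne_zero_of_mul_eq_one (by rw [← map_mul, h4, map_one])

theorem conic : ∃ C : ℝ, ∀ (K : Type) [Field K] [CharZero K] [DecidableEq K] (a b c d e f : K)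
    (A : Finset (K × K)) (w : K × K → ℝ),
    4 * a * c * f + b * d * e - a * e ^ 2 - c * d ^ 2 - f * b ^ 2 ≠ 0 →
    (∀ z ∈ A, a * z.1 ^ 2 + b * z.1 * z.2 + c * z.2 ^ 2 + d * z.1 + e * z.2 + f = 0) →
    2 ≤ A.card → E3R8.W A w ≤ C * Real.log A.card * (∑ z ∈ A, w z ^ 2) ^ 3 := by
  obtain ⟨C, H⟩ := cconic
  refine ⟨C, fun K _ _ _ a b c d e f A w hD hq h2 => ?_⟩
  classical
  set B := A.image Prod.fst ∪ A.image Prod.snd with hB
  obtain ⟨R, ψ, h1, h3⟩ := place K ({a, b, c, d, e, f,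
    4 * a * c * f + b * d * e - a * e ^ 2 - c * d ^ 2 - f * b ^ 2} ∪ B ∪ image₂ (· - ·) B B)
  have m1 : ∀ z ∈ A, z.1 ∈ B := fun z hz => mem_union_left _ (mem_image_of_mem _ hz)
  have m2 : ∀ z ∈ A, z.2 ∈ B := fun z hz => mem_union_right _ (mem_image_of_mem _ hz)
  have m3 : ∀ x ∈ B, x ∈ R := fun x hx => h1 x (mem_union_left _ (mem_union_right _ hx))
  obtain ⟨g, hg⟩ : ∃ g : K → R, ∀ x ∈ R, (g x : K) = x :=
    ⟨fun x => if h : x ∈ R then ⟨x, h⟩ else 0, fun x hx => by simp [hx]⟩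
  have ga := hg a (h1 _ (by simp))
  have gb := hg b (h1 _ (by simp))
  have gc := hg c (h1 _ (by simp))
  have gd := hg d (h1 _ (by simp))
  have ge := hg e (h1 _ (by simp))
  have gf := hg f (h1 _ (by simp))
  have g1 := fun z hz => hg _ (m3 _ (m1 z hz))
  have g2 := fun z hz => hg _ (m3 _ (m2 z hz))
  have hi : ∀ x ∈ B, ∀ y ∈ B, ψ (g x) = ψ (g y) → x = y := by
    intro x hx y hy h
    have e1 : ((g x - g y : R) : K) = x - y := by
      rw [Subalgebra.coe_sub, hg x (m3 x hx), hg y (m3 y hy)]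
    by_contra hne
    refine h3 (g x - g y) (e1 ▸ mem_union_right _ (mem_image₂_of_mem hx hy)) (fun e2 => ?_)
      (by rw [map_sub, h, sub_self])
    rw [e2] at e1
    exact hne (sub_eq_zero.1 e1.symm)
  have := H (K × K) A (fun z => |w z|) (fun z => ψ (g z.1)) (fun z => ψ (g z.2)) (ψ (g a))
    (ψ (g b)) (ψ (g c)) (ψ (g d)) (ψ (g e)) (ψ (g f)) ?_ (fun _ => abs_nonneg _) h2
    (fun z hz z' hz' e1 e2 => Prod.ext (hi _ (m1 z hz) _ (m1 z' hz') e1)
      (hi _ (m2 z hz) _ (m2 z' hz') e2)) (fun z hz => ?_) fun z hz hr => ⟨?_, ?_⟩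
  · simp only [sq_abs] at this
    refine le_trans (sum_le_sum fun z _ => ?_) this
    rw [← abs_prod]
    exact le_abs_self _
  · have e1 : ((4 * g a * g c * g f + g b * g d * g e - g a * g e ^ 2 - g c * g d ^ 2 -
        g f * g b ^ 2 : R) : K) =
        4 * a * c * f + b * d * e - a * e ^ 2 - c * d ^ 2 - f * b ^ 2 := by
      push_cast
      rw [ga, gb, gc, gd, ge, gf]
      rfl
    have := h3 (4 * g a * g c * g f + g b * g d * g e - g a * g e ^ 2 - g c * g d ^ 2 -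
        g f * g b ^ 2) (by rw [e1]; simp) fun e2 => hD (by rw [← e1, e2]; rfl)
    simpa [map_ofNat] using this
  · have e1 : g a * g z.1 ^ 2 + g b * g z.1 * g z.2 + g c * g z.2 ^ 2 + g d * g z.1 + g e * g z.2 +
        g f = 0 := Subtype.ext (by
      push_cast
      rw [ga, gb, gc, gd, ge, gf, g1 z hz, g2 z hz]
      exact hq z hz)
    simpa using congrArg ψ e1
  · simp only [← map_add]
    refine congrArg ψ (Subtype.ext ?_)
    push_cast
    simp only [g1 _ (hz _)]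
    exact congrArg Prod.fst hr
  · simp only [← map_add]
    refine congrArg ψ (Subtype.ext ?_)
    push_cast
    simp only [g2 _ (hz _)]
    exact congrArg Prod.snd hr

end E3CX
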