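import Pool.Agent.Lib.MP_4d4569_co.CX.Mor
import Pool.Agent.Lib.MP_4d4569_co.CX.Four

/-! The square function of the Morton blocks of one set, kernel tails, and a covering step. -/

namespace E3CX

open Finset MeasureTheory

variable {d : ℕ} {α : Type}

/-- the weighted exponential sum -/
noncomputable def f (X : Finset α) (p : α → Fin d → ℤ) (c : α → ℂ) (x : Om d) : ℂ :=
  ∑ a ∈ X, c a * e (p a) x

/-- the mass -/
noncomputable def ms (X : Finset α) (c : α → ℂ) : ℝ := ∑ a ∈ X, ‖c a‖ ^ 2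

/-- all differences of distinct points are distinct -/
def Sid {G : Type} [Sub G] (X : Finset α) (p : α → G) : Prop :=
  ∀ a ∈ X, ∀ b ∈ X, ∀ a' ∈ X, ∀ b' ∈ X, a ≠ b → p a - p b = p a' - p b' → a = a' ∧ b = b'

lemma Sid.mono {G : Type} [Sub G] {X Y : Finset α} {p : α → G} (h : Sid Y p) (hX : X ⊆ Y) :
    Sid X p := fun a ha b hb a' ha' b' hb' => h a (hX ha) b (hX hb) a' (hX ha') b' (hX hb')

lemma Sid.inj {G : Type} [AddGroup G] {X : Finset α} {p : α → G} (h : Sid X p) :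
    Set.InjOn p X := by
  intro a ha b hb hab
  by_contra hc
  exact hc (h a ha b hb a ha a ha hc (by rw [hab])).2.symm

@[fun_prop]
lemma f_cont (X : Finset α) (p : α → Fin d → ℤ) (c : α → ℂ) : Continuous (f X p c) := by
  unfold f
  fun_prop

lemma ms_nonneg (X : Finset α) (c : α → ℂ) : 0 ≤ ms X c := sum_nonneg fun _ _ => by positivity

lemma ms_mono {X Y : Finset α} (h : X ⊆ Y) (c : α → ℂ) : ms X c ≤ ms Y c :=
  sum_le_sum_of_subset_of_nonneg h fun _ _ _ => by positivity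

/-- the neighbourhood of a set of frequencies -/
noncomputable def nb (X : Finset α) (p : α → Fin d → ℤ) (σ : ℕ) : Finset (Fin d → ℤ) :=
  X.biUnion fun a => (Box d σ).image (p a + ·)

lemma mem_nb {X : Finset α} {p : α → Fin d → ℤ} {σ : ℕ} {ξ : Fin d → ℤ} :
    ξ ∈ nb X p σ ↔ ∃ a ∈ X, ∀ i, 0 ≤ ξ i - p a i ∧ ξ i - p a i ≤ σ := by
  simp only [nb, mem_biUnion, mem_image, mem_Box]
  refine exists_congr fun a => and_congr_right fun _ => ⟨?_, fun h => ⟨ξ - p a, h, by simp⟩⟩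
  rintro ⟨v, hv, rfl⟩ i
  simpa using hv i

lemma card_le_box (S : Finset (Fin d → ℤ)) (R : ℕ)
    (h : ∀ ξ ∈ S, ∀ η ∈ S, ∀ i, |ξ i - η i| ≤ R) : (S.card : ℝ) ≤ (2 * R + 1) ^ d := by
  rcases S.eq_empty_or_nonempty with rfl | ⟨η, hη⟩
  · simp only [card_empty, Nat.cast_zero]; positivity
  have h1 : S ⊆ Fintype.piFinset fun i => Icc (η i - R) (η i + R) := by
    intro ξ hξ
    rw [Fintype.mem_piFinset]
    intro i
    have := abs_le.1 (h ξ hξ η hη i)
    rw [mem_Icc]
    omega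
  have h2 := card_le_card h1
  rw [Fintype.card_piFinset] at h2
  have h3 : ∀ i, (Icc (η i - R) (η i + R)).card = 2 * R + 1 := fun i => by
    rw [Int.card_Icc]; omega
  simp only [h3, prod_const, card_univ, Fintype.card_fin] at h2
  exact_mod_cast h2

lemma Sp.fmul {X Y : Finset α} (hX : X ⊆ Y) (p : α → Fin d → ℤ) (c : α → ℂ) {σ : ℕ}
    {φ : Om d → ℂ} (h : Sp (Box d σ) φ) : Sp (nb Y p σ) fun x => f X p c x * φ x := by
  refine (Sp.of (S := X.image p) X p c fun a ha => mem_image_of_mem _ ha).mul h ?_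
  intro u hu v hv
  obtain ⟨a, ha, rfl⟩ := mem_image.1 hu
  exact mem_nb.2 ⟨a, hX ha, fun i => by simpa using mem_Box.1 hv i⟩

lemma Sp.sum {ι : Type} {S : Finset (Fin d → ℤ)} (T : Finset ι) (F : ι → Om d → ℂ)
    (h : ∀ s ∈ T, Sp S (F s)) : Sp S fun x => ∑ s ∈ T, F s x := by
  have : (fun x => ∑ s ∈ T, F s x) = ∑ s ∈ T, F s := by funext x; simp
  rw [Sp, this]
  exact Submodule.sum_mem _ h

lemma cs {ι : Type} (T : Finset ι) (z : ι → ℂ) :
    ‖∑ s ∈ T, z s‖ ^ 2 ≤ T.card * ∑ s ∈ T, ‖z s‖ ^ 2 :=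
  (pow_le_pow_left₀ (norm_nonneg _) (norm_sum_le _ _) 2).trans sq_sum_le_card_mul_sum_sq

lemma side (X : Finset α) (p : α → Fin d → ℤ) (c : α → ℂ) (hS : Sid X p) (m : ℝ) (hm : 0 < m) :
    ∃ g : Om d → ℝ, Continuous g ∧ (∀ x, 0 ≤ g x) ∧ ∫ x, g x ≤ ms X c ∧
      ∫ x, (g x - ms X c) ^ 2 ≤ 2 * m * ms X c ∧
      (∀ x, ‖f X p c x‖ ^ 2 ≤ (ms X c / m + 1) * g x) ∧
      ∀ (σ : ℕ) (φ : Om d → ℂ), Sp (Box d σ) φ → ∃ F : Om d → ℂ, Sp (nb X p σ) F ∧
        ∫ x, ‖F x‖ ^ 2 ≤ 2 ^ (d + 1) * ∫ x, g x * ‖φ x‖ ^ 2 ∧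
        ∀ x, ‖f X p c x * φ x - F x‖ ^ 2 ≤
          (ms X c / m + 1) * ((6 * σ + 3) ^ d * ∫ x, g x * ‖φ x‖ ^ 2) := by
  classical
  obtain ⟨β, hβ1, hβ2, hβ3⟩ := exists_blocks X p hS.inj (fun a => ‖c a‖ ^ 2)
    (fun _ => by positivity) m hm
  set B := X.image β with hB
  set Xs : ℕ → Finset α := fun s => X.filter fun a => β a = s with hXs
  have hmap : ∀ a ∈ X, β a ∈ B := fun a ha => mem_image_of_mem _ ha
  have hf : ∀ x, f X p c x = ∑ s ∈ B, f (Xs s) p c x := fun x =>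
    (sum_fiberwise_of_maps_to hmap _).symm
  have hn : ms X c = ∑ s ∈ B, ms (Xs s) c := (sum_fiberwise_of_maps_to hmap _).symm
  have hB1 : (B.card : ℝ) ≤ ms X c / m + 1 := hβ1
  set g : Om d → ℝ := fun x => ∑ s ∈ B, ‖f (Xs s) p c x‖ ^ 2 with hg
  have hg0 : ∀ x, 0 ≤ g x := fun x => sum_nonneg fun _ _ => by positivity
  refine ⟨g, by fun_prop, hg0, ?_, ?_, fun x => ?_, fun σ φ hφ => ?_⟩
  · rw [hg, integral_finsetSum _ fun s _ => cint (by fun_prop), hn]
    refine sum_le_sum fun s _ => ?_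
    have := L2 (Xs s) p c 1 fun a ha => by
      refine Nat.cast_le_one.2 (card_le_one.2 fun u hu v hv => ?_)
      simp only [hXs, mem_filter] at hu hv
      exact hS.inj hu.1.1 hv.1.1 (hu.2.symm.trans hv.2)
    rw [one_mul] at this
    exact this
  · set Q := (X ×ˢ X).filter (fun q => q.1 ≠ q.2 ∧ β q.1 = β q.2) with hQ
    have h1 : ∀ x, ((g x - ms X c : ℝ) : ℂ) =
        ∑ q ∈ Q, c q.1 * (starRingEnd ℂ) (c q.2) * e (p q.1 - p q.2) x := by
      intro x
      have h2 : ((g x : ℝ) : ℂ) = ∑ a ∈ X, ∑ b ∈ X,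
          if β a = β b then c a * (starRingEnd ℂ) (c b) * e (p a - p b) x else 0 := by
        rw [← sum_fiberwise_of_maps_to hmap, hg, Complex.ofReal_sum]
        refine sum_congr rfl fun s _ => ?_
        rw [Complex.ofReal_pow, ← Complex.mul_conj', f, map_sum, sum_mul_sum]
        refine sum_congr rfl fun a ha => ?_
        rw [← sum_filter, (mem_filter.1 ha).2]
        refine sum_congr (filter_congr fun _ _ => eq_comm) fun b _ => ?_
        rw [e_sub, map_mul]
        ring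
      rw [Complex.ofReal_sub, h2, hQ, sum_filter, sum_product, ms, Complex.ofReal_sum,
        ← sum_sub_distrib]
      refine sum_congr rfl fun a ha => ?_
      rw [← add_sum_erase _ _ ha, ← add_sum_erase _ _ ha, if_pos rfl, if_neg (by simp),
        Complex.mul_conj', sub_self, Complex.ofReal_pow]
      have : e (0 : Fin d → ℤ) x = 1 := by simp [e, ch_zero]
      rw [this, mul_one, zero_add, add_sub_cancel_left]
      refine sum_congr rfl fun b hb => ?_
      simp [(ne_of_mem_erase hb).symm]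
    have h2 := L2 Q (fun q => p q.1 - p q.2) (fun q => c q.1 * (starRingEnd ℂ) (c q.2)) 1
      fun a ha => by
        refine Nat.cast_le_one.2 (card_le_one.2 fun u hu v hv => ?_)
        simp only [hQ, mem_filter, mem_product] at hu hv
        have := hS _ hu.1.1.1 _ hu.1.1.2 _ hv.1.1.1 _ hv.1.1.2 hu.1.2.1 (hu.2.symm.trans hv.2)
        exact Prod.ext this.1 this.2
    simp_rw [← h1, Complex.norm_real, Real.norm_eq_abs, sq_abs, norm_mul, Complex.norm_conj,
      mul_pow, one_mul] at h2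
    exact h2.trans hβ2
  · rw [hf]
    exact (cs _ _).trans (mul_le_mul_of_nonneg_right hB1 (hg0 x))
  · obtain ⟨Lg, hL1, hL2, hL3⟩ := hβ3 σ
    have hφc := hφ.cont
    have hE : ∫ x, g x * ‖φ x‖ ^ 2 = ∑ s ∈ B, ∫ x, ‖f (Xs s) p c x * φ x‖ ^ 2 := by
      rw [← integral_finsetSum _ fun s _ => cint (by fun_prop)]
      simp_rw [hg, sum_mul, norm_mul, mul_pow]
    have hE' : ∀ T ⊆ B, ∑ s ∈ T, ∫ x, ‖f (Xs s) p c x * φ x‖ ^ 2 ≤ ∫ x, g x * ‖φ x‖ ^ 2 := by
      intro T hT
      rw [hE]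
      exact sum_le_sum_of_subset_of_nonneg hT fun _ _ _ => integral_nonneg fun _ => by positivity
    refine ⟨fun x => ∑ s ∈ Lg, f (Xs s) p c x * φ x,
      Sp.sum _ _ fun s _ => Sp.fmul (filter_subset _ _) p c hφ, ?_, fun x => ?_⟩
    · refine (Sp.orth Lg (fun s => nb (Xs s) p σ) _ (2 ^ (d + 1))
        (fun s _ => Sp.fmul Subset.rfl p c hφ) fun ξ => ?_).trans
        (mul_le_mul_of_nonneg_left (hE' _ hL1) (by positivity))
      have := hL3 ξ
      simp only [mem_nb, hXs, mem_filter, and_assoc]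
      exact_mod_cast this
    · rw [hf, sum_mul, ← sum_sdiff hL1, add_sub_cancel_right]
      refine (cs _ _).trans (mul_le_mul ((Nat.cast_le.2 (card_le_card sdiff_subset)).trans hB1) ?_
        (sum_nonneg fun _ _ => by positivity) ((Nat.cast_nonneg _).trans hB1))
      refine le_trans ?_ (mul_le_mul_of_nonneg_left (hE' _ (sdiff_subset (t := Lg))) (by positivity))
      rw [mul_sum]
      refine sum_le_sum fun s hs => ((Sp.fmul Subset.rfl p c hφ).sup x).trans
        (mul_le_mul_of_nonneg_right ?_ (integral_nonneg fun _ => by positivity))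
      refine (card_le_box _ (3 * σ + 1) fun ξ hξ η hη i => ?_).trans (le_of_eq (by push_cast; ring))
      obtain ⟨a, ha, h1⟩ := mem_nb.1 hξ
      obtain ⟨b, hb, h2⟩ := mem_nb.1 hη
      obtain ⟨ha1, ha2⟩ := mem_filter.1 ha
      obtain ⟨hb1, hb2⟩ := mem_filter.1 hb
      have h3 := abs_le.1 (hL2 a ha1 b hb1 (ha2.trans hb2.symm) (ha2 ▸ (mem_sdiff.1 hs).2) i)
      have h4 := h1 i
      have h5 := h2 i
      rw [abs_le]
      push_cast
      omega

lemma tail (hd : 0 < d) {g : Om d → ℝ} (hg : Continuous g) (hg0 : ∀ x, 0 ≤ g x) (k : ℕ)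
    (hk : 0 < k) (y : Om d) {φ : Om d → ℂ} (hφ : Continuous φ) (h1 : ∀ x, ‖φ x‖ ≤ 1)
    (h2 : ∀ x, ‖φ x‖ * (2 ^ k * dist x y) ^ d ≤ 32 ^ d) (A : ℝ) (hA : 0 ≤ A)
    (hc : ∀ j < k, ∫ x in Metric.closedBall y (1 / 2 ^ j), g x ≤
      A * (volume : Measure (Om d)).real (Metric.closedBall y (1 / 2 ^ j))) :
    ∫ x, g x * ‖φ x‖ ^ 2 ≤ A * 8192 ^ d * (1 / 2 ^ k) ^ d := by
  have hp : ∀ x, ∃ j < k, x ∈ Metric.closedBall y (1 / 2 ^ j) ∧
      ‖φ x‖ ≤ (64 * 2 ^ j / 2 ^ k) ^ d := by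
    intro x
    classical
    have h0 : dist x y ≤ 1 / 2 ^ 0 := by
      refine (dist_pi_le_iff (by norm_num)).2 fun i => ?_
      rw [dist_eq_norm]
      have := AddCircle.norm_le_half_period 1 (x := x i - y i) one_ne_zero
      norm_num at this ⊢
      linarith
    set P : ℕ → Prop := fun j => dist x y ≤ 1 / 2 ^ j with hP
    have h3 : P (Nat.findGreatest P (k - 1)) := Nat.findGreatest_spec (Nat.zero_le _) h0
    have h4 := Nat.findGreatest_le (P := P) (k - 1)
    set j := Nat.findGreatest P (k - 1) with hj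
    refine ⟨j, by omega, h3, ?_⟩
    rcases eq_or_lt_of_le h4 with h5 | h5
    · refine (h1 x).trans (one_le_pow₀ ?_)
      rw [show k = j + 1 by omega, pow_succ, le_div_iff₀ (by positivity)]
      have : (0 : ℝ) < 2 ^ j := by positivity
      linarith
    · have h6 : ¬ P (j + 1) := Nat.findGreatest_is_greatest (Nat.lt_succ_self _) h5
      have h7 : (2 : ℝ) ^ k * (1 / 2 ^ (j + 1)) ≤ 2 ^ k * dist x y :=
        mul_le_mul_of_nonneg_left (not_le.1 h6).le (by positivity)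
      have h8 := (mul_le_mul_of_nonneg_left (pow_le_pow_left₀ (by positivity) h7 d)
        (norm_nonneg (φ x))).trans (h2 x)
      rw [← le_div_iff₀ (by positivity), ← div_pow] at h8
      refine h8.trans (le_of_eq ?_)
      congr 1
      field_simp
      ring
  have h3 : ∀ x, g x * ‖φ x‖ ^ 2 ≤ ∑ j ∈ range k, ((64 * 2 ^ j / 2 ^ k) ^ d) ^ 2 *
      (Metric.closedBall y (1 / 2 ^ j)).indicator g x := by
    intro x
    obtain ⟨j, hj, h4, h5⟩ := hp x
    refine le_trans ?_ (single_le_sum (f := fun j => ((64 * 2 ^ j / 2 ^ k : ℝ) ^ d) ^ 2 *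
      (Metric.closedBall y (1 / 2 ^ j)).indicator g x) (fun i _ => mul_nonneg (by positivity)
        (Set.indicator_nonneg (fun z _ => hg0 z) x)) (mem_range.2 hj))
    simp only [Set.indicator_of_mem h4]
    rw [mul_comm]
    exact mul_le_mul_of_nonneg_right (pow_le_pow_left₀ (norm_nonneg _) h5 2) (hg0 x)
  have hi : ∀ j ∈ range k, Integrable fun x => ((64 * 2 ^ j / 2 ^ k : ℝ) ^ d) ^ 2 *
      (Metric.closedBall y (1 / 2 ^ j)).indicator g x := fun j _ =>
    ((cint hg).indicator measurableSet_closedBall).const_mul _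
  refine (integral_mono (cint (by fun_prop)) (integrable_finsetSum _ hi) h3).trans ?_
  rw [integral_finsetSum _ hi]
  have h4 : ∑ j ∈ range k, (2 : ℝ) ^ j / 2 ^ k ≤ 1 := by
    rw [← sum_div, div_le_one (by positivity), geom_sum_eq (by norm_num)]
    norm_num
  refine le_trans (sum_le_sum fun j hj => ?_)
    ((mul_sum _ _ _).ge.trans (mul_le_of_le_one_right (by positivity) h4))
  rw [integral_const_mul, integral_indicator measurableSet_closedBall]
  have h5 := (hc j (mem_range.1 hj)).trans (mul_le_mul_of_nonneg_left (vol_ball j y).2 hA)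
  refine (mul_le_mul_of_nonneg_left h5 (by positivity)).trans ?_
  have h6 : ((2 : ℝ) ^ j / 2 ^ k) ^ d ≤ 2 ^ j / 2 ^ k := by
    refine pow_le_of_le_one (by positivity) ?_ hd.ne'
    rw [div_le_one (by positivity)]
    exact pow_le_pow_right₀ (by norm_num) (mem_range.1 hj).le
  refine le_trans (le_of_eq ?_) (mul_le_mul_of_nonneg_left h6 (by positivity))
  rw [← pow_mul, mul_comm d 2, pow_mul, mul_left_comm, ← mul_pow, mul_assoc, mul_assoc,
    ← mul_pow, ← mul_pow]
  congr 2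
  field_simp
  ring

lemma vit (U : Set (Om d)) {h : Om d → ℝ} (hh : Continuous h) (h0 : ∀ x, 0 ≤ h x) (A : ℝ)
    (hA : 0 ≤ A) (H : ∀ y ∈ U, ∃ k : ℕ,
      (volume : Measure (Om d)).real (U ∩ Metric.closedBall y (4 / 2 ^ k)) ≤
        A * ∫ x in Metric.closedBall y (1 / 2 ^ k), h x) :
    (volume : Measure (Om d)).real U ≤ A * ∫ x, h x := by
  have := prob (d := d)
  choose! k hk using H
  obtain ⟨u, hu, hdis, hcov⟩ := Vitali.exists_disjoint_subfamily_covering_enlargement_closedBall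
    U (fun y => y) (fun y => (1 / 2 ^ k y : ℝ)) 1 (fun y _ => by
      rw [div_le_one (by positivity)]; exact one_le_pow₀ (by norm_num)) 4 (by norm_num)
  have hc : u.Countable := hdis.countable_of_nonempty_interior fun y _ =>
    ⟨y, Metric.ball_subset_interior_closedBall (Metric.mem_ball_self (by positivity))⟩
  have := hc.to_subtype
  have hs := hasSum_integral_iUnion (μ := (volume : Measure (Om d))) (f := h)
    (s := fun y : u => Metric.closedBall (y : Om d) (1 / 2 ^ k y))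
    (fun _ => measurableSet_closedBall) (hdis.subtype _ _) (cint hh).integrableOn
  have hs' := hs.mul_left A
  have hI : 0 ≤ ∫ x, h x := integral_nonneg h0
  refine ENNReal.toReal_le_of_le_ofReal (by positivity) ?_
  have h1 : U ⊆ ⋃ y : u, U ∩ Metric.closedBall (y : Om d) (4 / 2 ^ k y) := by
    intro x hx
    obtain ⟨y, hy, h2⟩ := hcov x hx
    refine Set.mem_iUnion.2 ⟨⟨y, hy⟩, hx, ?_⟩
    have := h2 (Metric.mem_closedBall_self (by positivity))
    rwa [mul_one_div] at this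
  refine (measure_mono h1).trans ((measure_iUnion_le _).trans ?_)
  refine le_trans (ENNReal.tsum_le_tsum fun y : u => ?_) (le_trans (le_of_eq
    (ENNReal.ofReal_tsum_of_nonneg (fun y => mul_nonneg hA (integral_nonneg h0))
      hs'.summable).symm) (ENNReal.ofReal_le_ofReal ?_))
  · rw [← ofReal_measureReal (measure_ne_top _ _)]
    exact ENNReal.ofReal_le_ofReal (hk y (hu y.2))
  · rw [hs'.tsum_eq]
    exact mul_le_mul_of_nonneg_left (setIntegral_le_integral (cint hh) (ae_of_all _ h0)) hA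

lemma cheb (V : Set (Om d)) {h : Om d → ℝ} (hh : Continuous h) (h0 : ∀ x, 0 ≤ h x) (a : ℝ)
    (ha : 0 ≤ a) (H : ∀ x ∈ V, a ≤ h x) :
    a * (volume : Measure (Om d)).real V ≤ ∫ x, h x := by
  have := prob (d := d)
  exact (mul_le_mul_of_nonneg_left (measureReal_mono H) ha).trans
    (mul_meas_ge_le_integral_of_nonneg (ae_of_all _ h0) (cint hh) a)

end E3CX
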